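import Pool.Agent.H591R3.PHG.Defs
import Pool.Agent.TH678.GC.Defs

/-!
# The refined low and high hierarchies relative to an oracle

`IsP A L` and `IsSig A k L` say that the language `L` is in `P` and in the level `Σ_k` of the
polynomial hierarchy relative to the oracle `A`, and `join A B` is the disjoint union of two oracles.
-/

set_option autoImplicit false

namespace Pool.Agent.W2helper61.LH

open Pool.Agent.H620R2.Gauge Pool.Agent.H591R3.PHG Pool.Agent.TH678.GC

open Classical in
/-- the oracle `O` together with the language `B` (its disjoint union with `B`) -/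
noncomputable def rel (O : Oracle) (B : Set (List Bool)) : Oracle := join O fun x => decide (x ∈ B)

/-- the class `Δ_n`: it is `P` for `n = 0`, and for `n = k + 1` it consists of the languages which
are in `P` relative to a language of the class `Σ_k` -/
def IsDelta (O : Oracle) : ℕ → Set (List Bool) → Prop
  | 0, L => IsP O L
  | k + 1, L => ∃ N, IsSig O k N ∧ IsP (rel O N) L

/-- the class `P` -/
def P (O : Oracle) : Set (Set (List Bool)) := {B | IsP O B}

/-- the level `L_k` of the low hierarchy: the languages `B` in `NP = Σ_1` for which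
`Σ_k(B) ⊆ Σ_k` -/
def Low (O : Oracle) (k : ℕ) : Set (Set (List Bool)) :=
  {B | IsSig O 1 B ∧ ∀ X, IsSig (rel O B) k X → IsSig O k X}

/-- the level `L^_n` of the refined low hierarchy: the languages `B` in `NP = Σ_1` for which
`Δ_n(B) ⊆ Δ_n` -/
def LowHat (O : Oracle) (n : ℕ) : Set (Set (List Bool)) :=
  {B | IsSig O 1 B ∧ ∀ X, IsDelta (rel O B) n X → IsDelta O n X}

/-- the level `H_k` of the high hierarchy: the languages `B` in `NP = Σ_1` for which
`Σ_{k+1} ⊆ Σ_k(B)` -/
def High (O : Oracle) (k : ℕ) : Set (Set (List Bool)) :=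
  {B | IsSig O 1 B ∧ ∀ X, IsSig O (k + 1) X → IsSig (rel O B) k X}

/-- the level `H^_n` of the refined high hierarchy: the languages `B` in `NP = Σ_1` for which
`Δ_{n+1} ⊆ Δ_n(B)` -/
def HighHat (O : Oracle) (n : ℕ) : Set (Set (List Bool)) :=
  {B | IsSig O 1 B ∧ ∀ X, IsDelta O (n + 1) X → IsDelta (rel O B) n X}

end Pool.Agent.W2helper61.LH
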