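import Pool.Agent.W2helper61.LH.Sim
import Pool.Agent.W2helper61.LH.Defs
import Pool.Agent.W2helper58.GU.Opt
import Pool.Agent.H591R3.PHG.Sig

/-! Languages with short keys are low. -/

set_option autoImplicit false

namespace Pool.Agent.W2helper61.LH

open Pool.Agent.NPC Pool.Agent.H622R2 Pool.Agent.H620R2.Gauge Pool.Agent.H591R3.PHG
  Pool.Agent.TH678.GC
open Pool.Agent.W2helper58.GU (out_congr)

open Classical in
/-- the characteristic function -/
noncomputable def cha (B : Set (List Bool)) : Oracle := fun x => decide (x ∈ B)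

theorem rel_eq (O : Oracle) (B : Set (List Bool)) : rel O B = join O (cha B) := rfl

theorem cha_iff (B : Set (List Bool)) (x : List Bool) : cha B x = true ↔ x ∈ B := by
  unfold cha; simp

theorem map2 {A : Oracle} {F G : List Bool → List Bool} {H : List Bool → List Bool → List Bool}
    (hF : IsFP A F) (hG : IsFP A G) (hH : Poly (fun p : List Bool × List Bool => H p.1 p.2)) :
    IsFP A (fun x => H (F x) (G x)) := by
  have h := IsFP.comp (IsFP.of_poly (A := A) (hH.comp poly_unpair)) (IsFP.pair hF hG)
  simp only [unpair_pairBits] at h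
  exact h

theorem map3 {A : Oracle} {F G K : List Bool → List Bool}
    {H : List Bool → List Bool → List Bool → List Bool}
    (hF : IsFP A F) (hG : IsFP A G) (hK : IsFP A K)
    (hH : Poly (fun p : List Bool × List Bool × List Bool => H p.1 p.2.1 p.2.2)) :
    IsFP A (fun x => H (F x) (G x) (K x)) := by
  have h1 : Poly (fun y : List Bool => ((unpair y).1, (unpair (unpair y).2).1,
      (unpair (unpair y).2).2)) :=
    Poly.pair (Poly.fst poly_unpair) (poly_unpair.comp (Poly.snd poly_unpair))
  have h := IsFP.comp (IsFP.of_poly (A := A) (hH.comp h1)) (IsFP.pair hF (IsFP.pair hG hK))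
  simp only [unpair_pairBits] at h
  exact h

theorem isFP_self (A : Oracle) : IsFP A (fun q => [A q]) := by
  have hQ : Poly (fun q : List Bool => [q]) := Poly.cons Poly.id (NPC.Poly.const [])
  have h := IsFP.tt (A := A) (H := fun p => p.2) hQ (Poly.snd Poly.id)
  exact h

theorem isFP_left (A E : Oracle) : IsFP (join A E) (fun q => [A q]) := by
  have hQ : Poly (fun q : List Bool => [false :: q]) :=
    Poly.cons (Poly.cons (NPC.Poly.const false) Poly.id) (NPC.Poly.const [])
  have h := IsFP.tt (A := join A E) (H := fun p => p.2) hQ (Poly.snd Poly.id)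
  exact h

theorem isFP_right (A E : Oracle) : IsFP (join A E) (fun q => [E q]) := by
  have hQ : Poly (fun q : List Bool => [true :: q]) :=
    Poly.cons (Poly.cons (NPC.Poly.const true) Poly.id) (NPC.Poly.const [])
  have h := IsFP.tt (A := join A E) (H := fun p => p.2) hQ (Poly.snd Poly.id)
  exact h

/-- select by the first bit -/
def sel (q a e : List Bool) : List Bool :=
  if q.head? = some false then a else if q.head? = some true then e else [false]

theorem poly_sel : Poly (fun p : List Bool × List Bool × List Bool => sel p.1 p.2.1 p.2.2) := by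
  unfold sel
  exact Poly.ite (Poly.decide_eq (Poly.head? (Poly.fst Poly.id)) (NPC.Poly.const _))
    (Poly.fst (Poly.snd Poly.id))
    (Poly.ite (Poly.decide_eq (Poly.head? (Poly.fst Poly.id)) (NPC.Poly.const _))
    (Poly.snd (Poly.snd Poly.id)) (NPC.Poly.const _))

theorem sel_join (A E : Oracle) (q : List Bool) :
    sel q [A q.tail] [E q.tail] = [join A E q] := by
  unfold sel
  rcases q with _ | ⟨b, q⟩
  · rfl
  · cases b <;> simp [join]

theorem isFP_joinP {A' : Oracle} {A E : List Bool → Oracle}
    (hA : IsFP A' (fun z => [A (unpair z).1 (unpair z).2]))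
    (hE : IsFP A' (fun z => [E (unpair z).1 (unpair z).2])) :
    IsFP A' (fun z => [join (A (unpair z).1) (E (unpair z).1) (unpair z).2]) := by
  have hg : Poly (fun z : List Bool => pairBits (unpair z).1 (unpair z).2.tail) :=
    poly_pairBits (Poly.fst poly_unpair) (Poly.tail (Poly.snd poly_unpair))
  have h1 := hA.precomp hg
  have h2 := hE.precomp hg
  simp only [unpair_pairBits] at h1 h2
  have h3 := map3 (H := fun q a e => sel q a e)
    (IsFP.of_poly (A := A') (Poly.snd poly_unpair)) h1 h2 poly_sel
  simp only [sel_join] at h3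
  exact h3

theorem isFP_join {A' A E : Oracle} (hA : IsFP A' (fun q => [A q]))
    (hE : IsFP A' (fun q => [E q])) : IsFP A' (fun q => [join A E q]) := by
  have h1 := hA.precomp (g := fun q => q.tail) (Poly.tail Poly.id)
  have h2 := hE.precomp (g := fun q => q.tail) (Poly.tail Poly.id)
  have h3 := map3 (H := fun q a e => sel q a e) (IsFP.of_poly (A := A') Poly.id) h1 h2 poly_sel
  simp only [sel_join] at h3
  exact h3

theorem poly_ones {α : Type} [TEnc α] {n : α → ℕ} (hn : UPoly n) :
    Poly (fun a => List.replicate (n a) true) :=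
  (NPC.Poly.map (F := fun _ _ => true) hn (NPC.Poly.const true)).congr fun a => by simp

theorem acc_congr (M : Alg) : ∃ qb : Polynomial ℕ, ∀ (O O' : Oracle) (x : List Bool),
    (∀ q : List Bool, q.length ≤ qb.eval x.length → O q = O' q) → acc M O x = acc M O' x := by
  obtain ⟨qb, hqb⟩ := out_congr M
  refine ⟨qb, fun O O' x h => ?_⟩
  unfold acc
  rw [hqb O O' x h]

theorem join_congr {A A' E E' : Oracle} {n : ℕ} (hA : ∀ q : List Bool, q.length ≤ n → A q = A' q)
    (hE : ∀ q : List Bool, q.length ≤ n → E q = E' q) (q : List Bool) (hq : q.length ≤ n) :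
    join A E q = join A' E' q := by
  rcases q with _ | ⟨b, q⟩
  · rfl
  · rw [List.length_cons] at hq
    cases b
    · exact hA q (by omega)
    · exact hE q (by omega)

/-- relative to `A'` at least as much is computable as relative to `A` -/
def Le (A A' : Oracle) : Prop := IsFP A' (fun q => [A q])

theorem Le.isFP {A A' : Oracle} (h : Le A A') {F : List Bool → List Bool} (hF : IsFP A F) :
    IsFP A' F := trans hF h

theorem Le.isP {A A' : Oracle} (h : Le A A') {L : Set (List Bool)} (hL : IsP A L) : IsP A' L := by
  obtain ⟨V, hV, hL⟩ := hL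
  exact ⟨V, h.isFP hV, hL⟩

theorem Le.isSig {A A' : Oracle} (h : Le A A') {k : ℕ} {L : Set (List Bool)} (hL : IsSig A k L) :
    IsSig A' k L := by
  obtain ⟨V, p, hV, hL⟩ := hL
  exact ⟨V, p, h.isFP hV, hL⟩

theorem le_rel {O : Oracle} {B : Set (List Bool)} (hB : IsP O B) : Le (rel O B) O := by
  obtain ⟨V, hV, hL⟩ := hB
  refine isFP_join (isFP_self O) ?_
  have h1 := IsFP.comp (IsFP.of_poly (A := O) (F := fun v => if v = [true] then [true] else [false])
    (Poly.ite (Poly.decide_eq Poly.id (NPC.Poly.const _)) (NPC.Poly.const _) (NPC.Poly.const _))) hV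
  have e : (fun x => if V x = [true] then [true] else [false]) =
      fun q => [cha B q] := by
    funext q
    by_cases h : q ∈ B
    · rw [if_pos ((hL q).1 h), (cha_iff B q).2 h]
    · rw [if_neg fun h2 => h ((hL q).2 h2)]
      simp [cha, h]
  have h2 : IsFP O (fun q => [cha B q]) := by
    rw [← e]
    exact h1
  exact h2

theorem isP_rel (O : Oracle) (B : Set (List Bool)) : IsP (rel O B) B :=
  ⟨_, isFP_right O _, fun x => by simp⟩

theorem isP_sig0 {O : Oracle} {L : Set (List Bool)} : IsSig O 0 L ↔ IsP O L := by
  constructor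
  · rintro ⟨V, p, hV, h⟩
    exact ⟨V, hV, h⟩
  · rintro ⟨V, hV, h⟩
    exact ⟨V, 0, hV, h⟩

/-! ### Keys computed with an oracle in `NP` -/

section hat

variable (M : Alg) (p : Polynomial ℕ) (O : Oracle) (Dd : List Bool → Oracle)

/-- the language of the witnesses relative to a key -/
def keyL : Set (List Bool) :=
  {z | ∃ w : List Bool, w.length ≤ p.eval (unpair z).2.length ∧
    acc M (join O (Dd (unpair z).1)) (pairBits w (unpair z).2) = [true]}

theorem isSig_keyL (hD : IsFP O (fun z => [Dd (unpair z).1 (unpair z).2])) :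
    IsSig O 1 (keyL M p O Dd) := by
  have h0 : IsFP O (fun z => [(fun _ : List Bool => O) (unpair z).1 (unpair z).2]) :=
    (isFP_self O).precomp (Poly.snd poly_unpair)
  have h1 := sim M (Af := fun κ => join O (Dd κ)) (isFP_joinP (A := fun _ => O) h0 hD)
  have h3 : Poly (fun y : List Bool => unpair (unpair y).2) :=
    poly_unpair.comp (Poly.snd poly_unpair)
  have hg : Poly (fun y : List Bool => pairBits (unpair (unpair y).2).1
      (pairBits (unpair y).1 (unpair (unpair y).2).2)) :=
    poly_pairBits (Poly.fst h3) (poly_pairBits (Poly.fst poly_unpair) (Poly.snd h3))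
  have h2 := h1.precomp hg
  simp only [unpair_pairBits] at h2
  have h4 := map2 (H := fun y a => if (unpair y).1.length ≤ p.eval (unpair (unpair y).2).2.length
      then a else []) (IsFP.of_poly (A := O) Poly.id) h2 (by
    have k1 : Poly (fun p : List Bool × List Bool => unpair (unpair p.1).2) :=
      h3.comp (Poly.fst Poly.id)
    exact Poly.ite (Poly.decide_le (Poly.length (Poly.fst (poly_unpair.comp (Poly.fst Poly.id))))
      (UPoly.toPoly (UPoly.eval (UPoly.length (Poly.snd k1)) p))) (Poly.snd Poly.id)
      (NPC.Poly.const _))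
  refine ⟨_, p, h4, fun z => ?_⟩
  unfold keyL
  simp only [Quant, Set.mem_ofPred_eq, unpair_pairBits]
  constructor
  · rintro ⟨w, hw, h⟩
    refine ⟨w, hw.trans (eval_mono _ (unpair_len2 z)), ?_⟩
    rw [if_pos hw]
    exact h
  · rintro ⟨w, _, h⟩
    by_cases hw : w.length ≤ p.eval (unpair z).2.length
    · rw [if_pos hw] at h
      exact ⟨w, hw, h⟩
    · rw [if_neg hw] at h
      simp at h

end hat

/-- the disjoint union of two languages -/
def dju (N₁ N₂ : Set (List Bool)) : Set (List Bool) :=
  {z | (z.head? = some false ∧ z.tail ∈ N₁) ∨ (z.head? = some true ∧ z.tail ∈ N₂)}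

theorem isSig_dju {O : Oracle} {N₁ N₂ : Set (List Bool)} (h1 : IsSig O 1 N₁) (h2 : IsSig O 1 N₂) :
    IsSig O 1 (dju N₁ N₂) := by
  obtain ⟨V₁, p₁, hV₁, hN₁⟩ := h1
  obtain ⟨V₂, p₂, hV₂, hN₂⟩ := h2
  have hg : Poly (fun y : List Bool => pairBits (unpair y).1 (unpair y).2.tail) :=
    poly_pairBits (Poly.fst poly_unpair) (Poly.tail (Poly.snd poly_unpair))
  have k1 := hV₁.precomp hg
  have k2 := hV₂.precomp hg
  have h3 := map3 (H := fun y a e => sel (unpair y).2
      (if (unpair y).1.length ≤ p₁.eval (unpair y).2.tail.length then a else [])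
      (if (unpair y).1.length ≤ p₂.eval (unpair y).2.tail.length then e else []))
    (IsFP.of_poly (A := O) Poly.id) k1 k2 (by
      have u1 : Poly (fun p : List Bool × List Bool × List Bool => unpair p.1) :=
        poly_unpair.comp (Poly.fst Poly.id)
      refine poly_sel.comp (Poly.pair (Poly.snd u1) (Poly.pair ?_ ?_))
      · exact Poly.ite (Poly.decide_le (Poly.length (Poly.fst u1)) (UPoly.toPoly (UPoly.eval
          (UPoly.length (Poly.tail (Poly.snd u1))) p₁))) (Poly.fst (Poly.snd Poly.id))
          (NPC.Poly.const _)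
      · exact Poly.ite (Poly.decide_le (Poly.length (Poly.fst u1)) (UPoly.toPoly (UPoly.eval
          (UPoly.length (Poly.tail (Poly.snd u1))) p₂))) (Poly.snd (Poly.snd Poly.id))
          (NPC.Poly.const _))
  refine ⟨_, p₁ + p₂, h3, fun z => ?_⟩
  unfold dju
  rw [Set.mem_ofPred_eq, hN₁, hN₂]
  simp only [Quant, unpair_pairBits]
  rcases z with _ | ⟨b, z⟩
  · simp [sel]
  have hp1 : p₁.eval z.length ≤ p₁.eval (z.length + 1) := eval_mono _ (by omega)
  have hp2 : p₂.eval z.length ≤ p₂.eval (z.length + 1) := eval_mono _ (by omega)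
  cases b with
  | false =>
    simp only [List.head?_cons, List.tail_cons, true_and, Option.some.injEq, reduceCtorEq,
      false_and, or_false, List.length_cons, Polynomial.eval_add, sel, if_true]
    constructor
    · rintro ⟨w, hw, h⟩
      exact ⟨w, by omega, by rw [if_pos hw]; exact h⟩
    · rintro ⟨w, _, h⟩
      by_cases hw : w.length ≤ p₁.eval z.length
      · rw [if_pos hw] at h
        exact ⟨w, hw, h⟩
      · rw [if_neg hw] at h
        simp at h
  | true =>
    simp only [List.head?_cons, List.tail_cons, true_and, Option.some.injEq, reduceCtorEq,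
      false_and, false_or, List.length_cons, Polynomial.eval_add, sel, if_false, if_true]
    constructor
    · rintro ⟨w, hw, h⟩
      exact ⟨w, by omega, by rw [if_pos hw]; exact h⟩
    · rintro ⟨w, _, h⟩
      by_cases hw : w.length ≤ p₂.eval z.length
      · rw [if_pos hw] at h
        exact ⟨w, hw, h⟩
      · rw [if_neg hw] at h
        simp at h

theorem cha_dju (N₁ N₂ : Set (List Bool)) : cha (dju N₁ N₂) = join (cha N₁) (cha N₂) := by
  funext z
  rw [Bool.eq_iff_iff, cha_iff]
  unfold dju
  rcases z with _ | ⟨b, z⟩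
  · simp [join]
  · cases b <;> simp [join, cha_iff]

/-- a language with keys which are computed relative to a language in `NP` is in `L^_2` -/
theorem lowHat_of_keys {O : Oracle} {B N₁ : Set (List Bool)} {K : List Bool → List Bool}
    {Dd : List Bool → Oracle} (hB : IsSig O 1 B) (hN : IsSig O 1 N₁) (hK : IsFP (rel O N₁) K)
    (hD : IsFP O (fun z => [Dd (unpair z).1 (unpair z).2]))
    (hkey : ∀ x q : List Bool, q.length ≤ x.length → Dd (K x) q = cha B q) :
    B ∈ LowHat O 2 := by
  refine ⟨hB, ?_⟩
  rintro X ⟨N, ⟨V, p, hV, hNV⟩, hX⟩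
  obtain ⟨M, _, rfl⟩ := exists_acc hV
  obtain ⟨qb, hqb⟩ := acc_congr M
  have hN₂ := isSig_keyL M p O Dd hD
  refine ⟨dju N₁ (keyL M p O Dd), isSig_dju hN hN₂, ?_⟩
  have hR : rel O (dju N₁ (keyL M p O Dd)) = join O (join (cha N₁) (cha (keyL M p O Dd))) := by
    rw [rel_eq, cha_dju]
  set O' := rel O (dju N₁ (keyL M p O Dd)) with hO'
  have hO : Le O O' := by rw [hR]; exact isFP_left _ _
  have hN1' : Le (cha N₁) O' := by
    rw [hR]
    exact trans (isFP_left (cha N₁) (cha (keyL M p O Dd))) (isFP_right _ _)
  have hN2' : Le (cha (keyL M p O Dd)) O' := by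
    rw [hR]
    exact trans (isFP_right (cha N₁) (cha (keyL M p O Dd))) (isFP_right _ _)
  have hrel : Le (rel O N₁) O' := isFP_join hO hN1'
  have hK' : IsFP O' K := hrel.isFP hK
  have hD' : IsFP O' (fun z => [Dd (unpair z).1 (unpair z).2]) := hO.isFP hD
  have hB' : Le (cha B) O' := by
    have h1 := IsFP.comp hD' (IsFP.pair hK' (IsFP.of_poly (A := O') Poly.id))
    simp only [unpair_pairBits] at h1
    have e : (fun q : List Bool => [Dd (K q) q]) = fun q => [cha B q] := by
      funext q
      rw [hkey q q le_rfl]
    rw [e] at h1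
    exact h1
  -- the language `N`
  set m : Polynomial ℕ := qb.comp (Polynomial.C 2 * p + Polynomial.X + Polynomial.C 1) with hm
  have hones : Poly (fun y : List Bool => List.replicate (m.eval y.length) true) :=
    poly_ones (UPoly.eval (UPoly.length Poly.id) m)
  have hK2 := hK'.precomp hones
  have hNN : Le (cha N) O' := by
    have h1 := IsFP.comp (show IsFP O' (fun q => [cha (keyL M p O Dd) q]) from hN2')
      (IsFP.pair hK2 (IsFP.of_poly (A := O') Poly.id))
    have e : (fun y : List Bool => [cha (keyL M p O Dd)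
        (pairBits (K (List.replicate (m.eval y.length) true)) y)]) = fun q => [cha N q] := by
      funext y
      congr 1
      rw [Bool.eq_iff_iff, cha_iff, cha_iff, hNV y]
      unfold keyL
      simp only [Quant, Set.mem_ofPred_eq, unpair_pairBits]
      refine exists_congr fun w => and_congr_right fun hw => ?_
      rw [rel_eq]
      have h2 := hqb (join O (Dd (K (List.replicate (m.eval y.length) true)))) (join O (cha B))
        (pairBits w y) (join_congr (fun _ _ => rfl) fun q hq => hkey _ q (by
          rw [List.length_replicate]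
          refine hq.trans ?_
          rw [hm, Polynomial.eval_comp]
          apply eval_mono
          rw [A2.length_pairBits]
          simp only [Polynomial.eval_add, Polynomial.eval_mul, Polynomial.eval_C,
            Polynomial.eval_X]
          omega))
      rw [h2]
    rw [e] at h1
    exact h1
  have hfin : Le (rel (rel O B) N) O' := isFP_join (isFP_join hO hB') hNN
  exact hfin.isP hX

/-- a language with keys which are verified in `coNP` is in `L_2` -/
theorem low_of_keys {O : Oracle} {B : Set (List Bool)} {R : List Bool → List Bool}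
    {Dd : List Bool → Oracle} {r s : Polynomial ℕ} (hB : IsSig O 1 B) (hR : IsFP O R)
    (hD : IsFP O (fun z => [Dd (unpair z).1 (unpair z).2]))
    (hex : ∀ m : ℕ, ∃ κ : List Bool, κ.length ≤ s.eval m ∧ ∀ v : List Bool, v.length ≤ r.eval m →
      R (pairBits v (pairBits κ (List.replicate m true))) = [true])
    (hval : ∀ (m : ℕ) (κ : List Bool), (∀ v : List Bool, v.length ≤ r.eval m →
      R (pairBits v (pairBits κ (List.replicate m true))) = [true]) →
        ∀ q : List Bool, q.length ≤ m → Dd κ q = cha B q) :
    B ∈ Low O 2 := by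
  refine ⟨hB, ?_⟩
  rintro X ⟨V, p, hV, hX⟩
  obtain ⟨M, _, rfl⟩ := exists_acc hV
  obtain ⟨qb, hqb⟩ := acc_congr M
  set m : Polynomial ℕ := qb.comp (Polynomial.C 4 * p + Polynomial.X + Polynomial.C 2) with hm
  -- the pieces
  have h0 : IsFP O (fun z => [(fun _ : List Bool => O) (unpair z).1 (unpair z).2]) :=
    (isFP_self O).precomp (Poly.snd poly_unpair)
  have h1 := sim M (Af := fun κ => join O (Dd κ)) (isFP_joinP (A := fun _ => O) h0 hD)
  -- `y = ⟨w', ⟨w, x⟩⟩`, `w' = ⟨v, v₂⟩`, `w = ⟨κ, u⟩`
  have hw' : Poly (fun y : List Bool => unpair (unpair y).1) :=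
    poly_unpair.comp (Poly.fst poly_unpair)
  have hwx : Poly (fun y : List Bool => unpair (unpair y).2) :=
    poly_unpair.comp (Poly.snd poly_unpair)
  have hw : Poly (fun y : List Bool => unpair (unpair (unpair y).2).1) :=
    poly_unpair.comp (Poly.fst hwx)
  have hg1 : Poly (fun y : List Bool => pairBits (unpair (unpair (unpair y).2).1).1
      (pairBits (unpair (unpair y).1).2 (pairBits (unpair (unpair (unpair y).2).1).2
        (unpair (unpair y).2).2))) :=
    poly_pairBits (Poly.fst hw) (poly_pairBits (Poly.snd hw') (poly_pairBits (Poly.snd hw)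
      (Poly.snd hwx)))
  have hg2 : Poly (fun y : List Bool => pairBits (unpair (unpair y).1).1
      (pairBits (unpair (unpair (unpair y).2).1).1
        (List.replicate (m.eval (unpair (unpair y).2).2.length) true))) :=
    poly_pairBits (Poly.fst hw') (poly_pairBits (Poly.fst hw)
      (poly_ones (UPoly.eval (UPoly.length (Poly.snd hwx)) m)))
  have k1 := h1.precomp hg1
  have k2 := hR.precomp hg2
  simp only [unpair_pairBits] at k1
  have h3 := map3 (H := fun y a e =>
      if (unpair (unpair (unpair y).2).1).2.length ≤ p.eval (unpair (unpair y).2).2.length ∧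
        ((unpair (unpair y).1).1.length ≤ r.eval (m.eval (unpair (unpair y).2).2.length) →
          e = [true]) ∧
        ((unpair (unpair y).1).2.length ≤ p.eval (unpair (unpair y).2).2.length → a = [true])
      then [true] else []) (IsFP.of_poly (A := O) Poly.id) k1 k2 (by
      have e0 : Poly (fun p : List Bool × List Bool × List Bool => p.1) := Poly.fst Poly.id
      have e1 := hw'.comp e0
      have e2 := hwx.comp e0
      have e3 := hw.comp e0
      have c1 := Poly.decide_le (Poly.length (Poly.snd e3))
        (UPoly.toPoly (UPoly.eval (UPoly.length (Poly.snd e2)) p))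
      have c2 := Poly.decide_le (Poly.length (Poly.fst e1))
        (UPoly.toPoly (UPoly.eval (UPoly.eval (UPoly.length (Poly.snd e2)) m) r))
      have c3 := Poly.decide_le (Poly.length (Poly.snd e1))
        (UPoly.toPoly (UPoly.eval (UPoly.length (Poly.snd e2)) p))
      have d2 : Poly (fun p : List Bool × List Bool × List Bool => decide (p.2.2 = [true])) :=
        Poly.decide_eq (Poly.snd (Poly.snd Poly.id)) (NPC.Poly.const _)
      have d3 : Poly (fun p : List Bool × List Bool × List Bool => decide (p.2.1 = [true])) :=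
        Poly.decide_eq (Poly.fst (Poly.snd Poly.id)) (NPC.Poly.const _)
      refine Poly.ite (Poly.decide_and c1 (Poly.decide_and ?_ ?_)) (NPC.Poly.const _)
        (NPC.Poly.const _)
      · refine (Poly.or (Poly.not c2) d2).congr fun p => ?_
        by_cases h : (unpair (unpair p.1).1).1.length ≤ r.eval (m.eval (unpair (unpair p.1).2).2.length)
        · simp [h]
        · simp [h]
      · refine (Poly.or (Poly.not c3) d3).congr fun q => ?_
        by_cases h : (unpair (unpair q.1).1).2.length ≤ p.eval (unpair (unpair q.1).2).2.length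
        · simp [h]
        · simp [h])
  refine ⟨_, Polynomial.C 2 * s.comp m + p + Polynomial.C 2 * r.comp m + Polynomial.C 1, h3,
    fun x => ?_⟩
  rw [hX x]
  simp only [Quant, unpair_pairBits]
  have hcong : ∀ (κ u v : List Bool), u.length ≤ p.eval x.length → v.length ≤ p.eval x.length →
      (∀ q : List Bool, q.length ≤ m.eval x.length → Dd κ q = cha B q) →
      acc M (join O (Dd κ)) (pairBits v (pairBits u x)) =
        acc M (rel O B) (pairBits v (pairBits u x)) := by
    intro κ u v hu hv hκ
    rw [rel_eq]
    refine hqb _ _ _ (join_congr (fun _ _ => rfl) fun q hq => hκ q (hq.trans ?_))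
    rw [hm, Polynomial.eval_comp]
    apply eval_mono
    rw [A2.length_pairBits, A2.length_pairBits]
    simp only [Polynomial.eval_add, Polynomial.eval_mul, Polynomial.eval_C, Polynomial.eval_X]
    omega
  simp only [Polynomial.eval_add, Polynomial.eval_mul, Polynomial.eval_C, Polynomial.eval_comp]
  constructor
  · rintro ⟨u, hu, hV⟩
    obtain ⟨κ, hκ, hκ2⟩ := hex (m.eval x.length)
    refine ⟨pairBits κ u, by rw [A2.length_pairBits]; omega, fun w' _ => ?_⟩
    rw [if_pos]
    simp only [unpair_pairBits]
    refine ⟨hu, fun h => hκ2 _ h, fun h => ?_⟩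
    rw [hcong κ u _ hu h (hval _ κ hκ2)]
    exact hV _ h
  · rintro ⟨w, _, hw⟩
    have key : ∀ v v₂ : List Bool, v.length ≤ r.eval (m.eval x.length) →
        v₂.length ≤ p.eval x.length →
        (unpair w).2.length ≤ p.eval x.length ∧
        R (pairBits v (pairBits (unpair w).1 (List.replicate (m.eval x.length) true))) = [true] ∧
        acc M (join O (Dd (unpair w).1)) (pairBits v₂ (pairBits (unpair w).2 x)) = [true] := by
      intro v v₂ hv hv₂
      have h := hw (pairBits v v₂) (by rw [A2.length_pairBits]; omega)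
      simp only [unpair_pairBits] at h
      split_ifs at h with h4
      exact ⟨h4.1, h4.2.1 hv, h4.2.2 hv₂⟩
    have hu := (key [] [] (by simp) (by simp)).1
    refine ⟨(unpair w).2, hu, fun v₂ hv₂ => ?_⟩
    rw [← hcong (unpair w).1 (unpair w).2 v₂ hu hv₂
      (hval _ _ fun v hv => (key v [] hv (by simp)).2.1)]
    exact (key [] v₂ (by simp) hv₂).2.2

end Pool.Agent.W2helper61.LH
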