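import Pool.Agent.W2helper61.LH.Ord

/-! The language `LB` is in `L_2`, and the language `LX` is in `Δ_2` relative to it. -/

set_option autoImplicit false

namespace Pool.Agent.W2helper61.LH

open Pool.Agent.NPC Pool.Agent.H622R2 Pool.Agent.H620R2.Gauge Pool.Agent.H591R3.PHG
  Pool.Agent.TH678.GC

/-- the four questions -/
def q4 (x y z : List Bool) : List (List Bool) :=
  [false :: pairBits x y, false :: pairBits y x, false :: pairBits y z, false :: pairBits z x]

/-- the triple is bad, in terms of the answers -/
def badb (x y z as : List Bool) (i : ℕ) : Bool :=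
  (decide (x ≠ y) && decide (as.getD i false = as.getD (i + 1) false)) ||
    ((decide (x ≠ y) && decide (as.getD i false = true)) &&
    ((decide (y ≠ z) && decide (as.getD (i + 2) false = true)) &&
    (decide (z ≠ x) && decide (as.getD (i + 3) false = true))))

theorem badb_iff {A : Oracle} {x y z as : List Bool} {i : ℕ}
    (h0 : as.getD i false = A (pairBits x y)) (h1 : as.getD (i + 1) false = A (pairBits y x))
    (h2 : as.getD (i + 2) false = A (pairBits y z)) (h3 : as.getD (i + 3) false = A (pairBits z x)) :
    badb x y z as i = true ↔ Bad A x y z := by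
  unfold badb Bad bt
  rw [h0, h1, h2, h3]
  simp only [ne_eq, Bool.or_eq_true, Bool.and_eq_true, decide_eq_true_eq]

theorem poly_badb {α : Type} [TEnc α] {x y z as : α → List Bool} (hx : Poly x) (hy : Poly y)
    (hz : Poly z) (has : Poly as) (i : ℕ) : Poly (fun a => badb (x a) (y a) (z a) (as a) i) := by
  have hg : ∀ j : ℕ, Poly (fun a => (as a).getD j false) := fun j =>
    Poly.getD has (NPC.Poly.const j) (NPC.Poly.const false)
  have hne : ∀ {u v : α → List Bool}, Poly u → Poly v → Poly (fun a => decide (u a ≠ v a)) :=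
    fun hu hv => Poly.decide_not (Poly.decide_eq hu hv)
  have ht : ∀ j : ℕ, Poly (fun a => decide ((as a).getD j false = true)) := fun j =>
    Poly.decide_eq (hg j) (NPC.Poly.const true)
  unfold badb
  exact Poly.or (Poly.and (hne hx hy) (Poly.decide_eq (hg i) (hg (i + 1))))
    (Poly.and (Poly.and (hne hx hy) (ht i)) (Poly.and (Poly.and (hne hy hz) (ht (i + 2)))
      (Poly.and (hne hz hx) (ht (i + 3)))))

theorem poly_q4 {α : Type} [TEnc α] {x y z : α → List Bool} (hx : Poly x) (hy : Poly y)
    (hz : Poly z) : Poly (fun a => q4 (x a) (y a) (z a)) := by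
  have hp : ∀ {u v : α → List Bool}, Poly u → Poly v → Poly (fun a => false :: pairBits (u a) (v a)) :=
    fun hu hv => Poly.cons (NPC.Poly.const false) (poly_pairBits hu hv)
  unfold q4
  exact Poly.cons (hp hx hy) (Poly.cons (hp hy hx) (Poly.cons (hp hy hz) (Poly.cons (hp hz hx)
    (NPC.Poly.const []))))

/-- a triple -/
def t1 (t : List Bool) : List Bool := (unpair t).1
/-- a triple -/
def t2 (t : List Bool) : List Bool := (unpair (unpair t).2).1
/-- a triple -/
def t3 (t : List Bool) : List Bool := (unpair (unpair t).2).2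

theorem poly_t1 : Poly t1 := Poly.fst poly_unpair
theorem poly_t2 : Poly t2 := Poly.fst (poly_unpair.comp (Poly.snd poly_unpair))
theorem poly_t3 : Poly t3 := Poly.snd (poly_unpair.comp (Poly.snd poly_unpair))

/-- the lengths of the triple -/
def lenb (t : List Bool) (n : ℕ) : Bool :=
  decide ((t1 t).length = n) && (decide ((t2 t).length = n) && decide ((t3 t).length = n))

theorem poly_lenb {α : Type} [TEnc α] {t : α → List Bool} {n : α → ℕ} (ht : Poly t) (hn : Poly n) :
    Poly (fun a => lenb (t a) (n a)) := by
  unfold lenb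
  exact Poly.and (Poly.decide_eq (Poly.length (poly_t1.comp ht)) hn)
    (Poly.and (Poly.decide_eq (Poly.length (poly_t2.comp ht)) hn)
      (Poly.decide_eq (Poly.length (poly_t3.comp ht)) hn))

theorem lenb_iff (t : List Bool) (n : ℕ) : lenb t n = true ↔
    (t1 t).length = n ∧ (t2 t).length = n ∧ (t3 t).length = n := by
  simp [lenb]

/-! ### Membership in `NP` -/

/-- the questions of the verifier; `y = ⟨t, q⟩` -/
def nQ (y : List Bool) : List (List Bool) :=
  (false :: pairBits (t1 (unpair y).1) (unpair y).2) ::
    q4 (t1 (unpair y).1) (t2 (unpair y).1) (t3 (unpair y).1)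

/-- the decision of the verifier -/
def nH (p : List Bool × List Bool) : List Bool :=
  if (((decide ((t1 (unpair p.1).1).length = (unpair p.1).2.length) &&
      decide (t1 (unpair p.1).1 ≠ (unpair p.1).2)) && decide (p.2.getD 0 false = true)) ||
      (lenb (unpair p.1).1 (unpair p.1).2.length &&
        badb (t1 (unpair p.1).1) (t2 (unpair p.1).1) (t3 (unpair p.1).1) p.2 1)) = true
  then [true] else []

theorem isSig_LB (A E : Oracle) : IsSig (join A E) 1 (LB A) := by
  have h1 : Poly (fun y : List Bool => (unpair y).1) := Poly.fst poly_unpair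
  have h2 : Poly (fun y : List Bool => (unpair y).2) := Poly.snd poly_unpair
  have hQ : Poly nQ := by
    unfold nQ
    exact Poly.cons (Poly.cons (NPC.Poly.const false) (poly_pairBits (poly_t1.comp h1) h2))
      (poly_q4 (poly_t1.comp h1) (poly_t2.comp h1) (poly_t3.comp h1))
  have k1 : Poly (fun p : List Bool × List Bool => (unpair p.1).1) := h1.comp (Poly.fst Poly.id)
  have k2 : Poly (fun p : List Bool × List Bool => (unpair p.1).2) := h2.comp (Poly.fst Poly.id)
  have k3 : Poly (fun p : List Bool × List Bool => p.2) := Poly.snd Poly.id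
  have hH : Poly nH := by
    unfold nH
    refine Poly.ite (Poly.decide_eq (Poly.or (Poly.and (Poly.and (Poly.decide_eq (Poly.length
      (poly_t1.comp k1)) (Poly.length k2)) (Poly.decide_not (Poly.decide_eq (poly_t1.comp k1) k2)))
      (Poly.decide_eq (Poly.getD k3 (NPC.Poly.const 0) (NPC.Poly.const false)) (NPC.Poly.const true)))
      (Poly.and (poly_lenb k1 (Poly.length k2)) (poly_badb (poly_t1.comp k1) (poly_t2.comp k1)
        (poly_t3.comp k1) k3 1))) (NPC.Poly.const true)) (NPC.Poly.const _) (NPC.Poly.const _)
  refine ⟨_, Polynomial.C 5 * Polynomial.X + Polynomial.C 2, IsFP.tt hQ hH, fun q => ?_⟩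
  have key : ∀ t : List Bool, nH (pairBits t q, (nQ (pairBits t q)).map (join A E)) = [true] ↔
      ((t1 t).length = q.length ∧ bt A (t1 t) q) ∨
      (((t1 t).length = q.length ∧ (t2 t).length = q.length ∧ (t3 t).length = q.length) ∧
        Bad A (t1 t) (t2 t) (t3 t)) := by
    intro t
    unfold nH nQ
    simp only [unpair_pairBits]
    set as := ((false :: pairBits (t1 t) q) :: q4 (t1 t) (t2 t) (t3 t)).map (join A E) with has
    have e0 : as.getD 0 false = A (pairBits (t1 t) q) := rfl
    have hb : badb (t1 t) (t2 t) (t3 t) as 1 = true ↔ Bad A (t1 t) (t2 t) (t3 t) :=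
      badb_iff rfl rfl rfl rfl
    rw [← hb, ← lenb_iff, e0]
    unfold bt
    split_ifs with h
    · simp only [true_iff]
      simpa [and_assoc] using h
    · simp only [false_iff]
      intro h2
      apply h
      simpa [and_assoc] using h2
  simp only [Quant, key]
  constructor
  · rintro (⟨z, hz, hb⟩ | ⟨x, y, z, hx, hy, hz, hb⟩)
    · refine ⟨pairBits z [], ?_, Or.inl ?_⟩
      · rw [A2.length_pairBits]
        simp only [Polynomial.eval_add, Polynomial.eval_mul, Polynomial.eval_C, Polynomial.eval_X,
          List.length_nil]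
        omega
      · unfold t1
        rw [unpair_pairBits]
        exact ⟨hz, hb⟩
    · refine ⟨pairBits x (pairBits y z), ?_, Or.inr ?_⟩
      · rw [A2.length_pairBits, A2.length_pairBits]
        simp only [Polynomial.eval_add, Polynomial.eval_mul, Polynomial.eval_C, Polynomial.eval_X]
        omega
      · unfold t1 t2 t3
        simp only [unpair_pairBits]
        exact ⟨⟨hx, hy, hz⟩, hb⟩
  · rintro ⟨t, _, (⟨hz, hb⟩ | ⟨⟨hx, hy, hz⟩, hb⟩)⟩
    · exact Or.inl ⟨t1 t, hz, hb⟩
    · exact Or.inr ⟨t1 t, t2 t, t3 t, hx, hy, hz, hb⟩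

/-! ### The keys -/

/-- the entry for the length `n` -/
def ent (κ : List Bool) (n : ℕ) : List Bool :=
  ((unbits (List (List Bool)) κ).getD []).getD n []

theorem poly_ent {α : Type} [TEnc α] {κ : α → List Bool} {n : α → ℕ} (hκ : Poly κ)
    (hn : Poly n) : Poly (fun a => ent (κ a) (n a)) := by
  unfold ent
  have h1 : Poly (fun a => (unbits (List (List Bool)) (κ a)).getD []) :=
    (Poly.optCases (poly_unbits.comp hκ) (NPC.Poly.const []) (h := fun _ b => b)
      (Poly.snd Poly.id)).congr fun a => by cases unbits (List (List Bool)) (κ a) <;> rfl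
  exact Poly.getD h1 hn (NPC.Poly.const [])

/-- membership according to the key -/
def Dk (κ q : List Bool) : Bool :=
  decide ((ent κ q.length).head? = some true) || decide (q ≠ (ent κ q.length).tail)

theorem poly_Dk : Poly (fun z : List Bool => [Dk (unpair z).1 (unpair z).2]) := by
  have h1 : Poly (fun y : List Bool => (unpair y).1) := Poly.fst poly_unpair
  have h2 : Poly (fun y : List Bool => (unpair y).2) := Poly.snd poly_unpair
  have h3 := poly_ent h1 (Poly.length h2)
  unfold Dk
  exact Poly.cons (Poly.or (Poly.decide_eq (Poly.head? h3) (NPC.Poly.const _))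
    (Poly.decide_not (Poly.decide_eq h2 (Poly.tail h3)))) (NPC.Poly.const [])

/-- the questions of the verifier: `e` is the entry and `t` the triple -/
def rQ (e t : List Bool) : List (List Bool) :=
  (false :: pairBits e.tail (t1 t)) :: (q4 (t1 e.tail) (t2 e.tail) (t3 e.tail) ++
    q4 (t1 t) (t2 t) (t3 t))

/-- the decision of the verifier -/
def rH (e t as : List Bool) (n : ℕ) : Bool :=
  if e.head? = some true then lenb e.tail n && badb (t1 e.tail) (t2 e.tail) (t3 e.tail) as 1
  else decide (e.tail.length = n) && ((decide ((t1 t).length ≠ n) || (decide (t1 t = e.tail) ||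
    decide (as.getD 0 false = true))) && (!(lenb t n) || !(badb (t1 t) (t2 t) (t3 t) as 5)))

theorem rH_iff (A E : Oracle) (e t : List Bool) (n : ℕ) :
    rH e t ((rQ e t).map (join A E)) n = true ↔
    (e.head? = some true ∧ ((t1 e.tail).length = n ∧ (t2 e.tail).length = n ∧
      (t3 e.tail).length = n) ∧ Bad A (t1 e.tail) (t2 e.tail) (t3 e.tail)) ∨
    (e.head? ≠ some true ∧ e.tail.length = n ∧ ((t1 t).length = n → t1 t ≠ e.tail →
      A (pairBits e.tail (t1 t)) = true) ∧ ((t1 t).length = n → (t2 t).length = n →
      (t3 t).length = n → ¬ Bad A (t1 t) (t2 t) (t3 t))) := by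
  set as := (rQ e t).map (join A E) with has
  have e0 : as.getD 0 false = A (pairBits e.tail (t1 t)) := rfl
  have hb1 : badb (t1 e.tail) (t2 e.tail) (t3 e.tail) as 1 = true ↔
      Bad A (t1 e.tail) (t2 e.tail) (t3 e.tail) := badb_iff rfl rfl rfl rfl
  have hb2 : badb (t1 t) (t2 t) (t3 t) as 5 = true ↔ Bad A (t1 t) (t2 t) (t3 t) :=
    badb_iff rfl rfl rfl rfl
  unfold rH
  by_cases h : e.head? = some true
  · simp only [h, if_true, Bool.and_eq_true, lenb_iff, hb1, true_and, ne_eq, not_true_eq_false,
      false_and, or_false]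
  · rw [if_neg h]
    simp only [Bool.and_eq_true, Bool.or_eq_true, Bool.not_eq_true', decide_eq_true_eq, ne_eq, h,
      false_and, not_false_eq_true, true_and, false_or]
    refine and_congr_right fun _ => and_congr ?_ ?_
    · rw [e0]
      constructor
      · rintro (h1 | h1 | h1) h2 h3
        · exact absurd h2 h1
        · exact absurd h1 h3
        · exact h1
      · intro h1
        by_cases h2 : (t1 t).length = n
        · by_cases h3 : t1 t = e.tail
          · exact Or.inr (Or.inl h3)
          · exact Or.inr (Or.inr (h1 h2 h3))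
        · exact Or.inl h2
    · rw [← hb2, ← Bool.not_eq_true, ← Bool.not_eq_true, lenb_iff]
      constructor
      · rintro (h1 | h1) h2 h3 h4
        · exact absurd ⟨h2, h3, h4⟩ h1
        · exact h1
      · intro h1
        by_cases h2 : (t1 t).length = n ∧ (t2 t).length = n ∧ (t3 t).length = n
        · exact Or.inr (h1 h2.1 h2.2.1 h2.2.2)
        · exact Or.inl h2

/-- the verifier of the keys; `z = ⟨v, ⟨κ, 1^m⟩⟩`, `v = ⟨1^n, t⟩` -/
def RQ (z : List Bool) : List (List Bool) :=
  rQ (ent (unpair (unpair z).2).1 (unpair (unpair z).1).1.length) (unpair (unpair z).1).2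

/-- the verifier of the keys -/
def RH (p : List Bool × List Bool) : List Bool :=
  if (decide ((unpair (unpair p.1).2).2.length < (unpair (unpair p.1).1).1.length) ||
    rH (ent (unpair (unpair p.1).2).1 (unpair (unpair p.1).1).1.length) (unpair (unpair p.1).1).2
      p.2 (unpair (unpair p.1).1).1.length) = true then [true] else []

theorem poly_RQ : Poly RQ := by
  have h1 : Poly (fun z : List Bool => unpair (unpair z).1) :=
    poly_unpair.comp (Poly.fst poly_unpair)
  have h2 : Poly (fun z : List Bool => unpair (unpair z).2) :=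
    poly_unpair.comp (Poly.snd poly_unpair)
  have he := poly_ent (Poly.fst h2) (Poly.length (Poly.fst h1))
  have ht := Poly.snd h1
  unfold RQ rQ
  exact Poly.cons (Poly.cons (NPC.Poly.const false) (poly_pairBits (Poly.tail he)
    (poly_t1.comp ht))) (Poly.append (poly_q4 (poly_t1.comp (Poly.tail he))
      (poly_t2.comp (Poly.tail he)) (poly_t3.comp (Poly.tail he)))
      (poly_q4 (poly_t1.comp ht) (poly_t2.comp ht) (poly_t3.comp ht)))

theorem poly_RH : Poly RH := by
  have h0 : Poly (fun p : List Bool × List Bool => p.1) := Poly.fst Poly.id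
  have h1 : Poly (fun p : List Bool × List Bool => unpair (unpair p.1).1) :=
    poly_unpair.comp (Poly.fst (poly_unpair.comp h0))
  have h2 : Poly (fun p : List Bool × List Bool => unpair (unpair p.1).2) :=
    poly_unpair.comp (Poly.snd (poly_unpair.comp h0))
  have hn := Poly.length (Poly.fst h1)
  have he := poly_ent (Poly.fst h2) hn
  have ht := Poly.snd h1
  have has : Poly (fun p : List Bool × List Bool => p.2) := Poly.snd Poly.id
  have he' := Poly.tail he
  unfold RH rH
  refine Poly.ite (Poly.decide_eq (Poly.or (Poly.decide_lt (Poly.length (Poly.snd h2)) hn)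
    (Poly.ite (Poly.decide_eq (Poly.head? he) (NPC.Poly.const _)) ?_ ?_)) (NPC.Poly.const true))
    (NPC.Poly.const _) (NPC.Poly.const _)
  · exact Poly.and (poly_lenb he' hn) (poly_badb (poly_t1.comp he') (poly_t2.comp he')
      (poly_t3.comp he') has 1)
  · exact Poly.and (Poly.decide_eq (Poly.length he') hn) (Poly.and (Poly.or (Poly.decide_not
      (Poly.decide_eq (Poly.length (poly_t1.comp ht)) hn)) (Poly.or (Poly.decide_eq
      (poly_t1.comp ht) he') (Poly.decide_eq (Poly.getD has (NPC.Poly.const 0)
      (NPC.Poly.const false)) (NPC.Poly.const true)))) (Poly.or (Poly.not (poly_lenb ht hn))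
      (Poly.not (poly_badb (poly_t1.comp ht) (poly_t2.comp ht) (poly_t3.comp ht) has 5))))

/-- the verifier -/
def RV (O : Oracle) (z : List Bool) : List Bool := RH (z, (RQ z).map O)

theorem isFP_RV (O : Oracle) : IsFP O (RV O) := IsFP.tt poly_RQ poly_RH

/-- the meaning of the entry `e` for the length `n` -/
def Good (A : Oracle) (n : ℕ) (e : List Bool) : Prop :=
  (e.head? = some true ∧ ((t1 e.tail).length = n ∧ (t2 e.tail).length = n ∧
      (t3 e.tail).length = n) ∧ Bad A (t1 e.tail) (t2 e.tail) (t3 e.tail)) ∨
  (e.head? ≠ some true ∧ e.tail.length = n ∧ (∀ z : List Bool, z.length = n → z ≠ e.tail →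
    A (pairBits e.tail z) = true) ∧ ∀ x y z : List Bool, x.length = n → y.length = n →
      z.length = n → ¬ Bad A x y z)

theorem Good.mem {A : Oracle} {e q : List Bool} (h : Good A q.length e) :
    q ∈ LB A ↔ e.head? = some true ∨ q ≠ e.tail := by
  unfold LB
  rw [Set.mem_ofPred_eq]
  rcases h with ⟨h1, ⟨hx, hy, hz⟩, hb⟩ | ⟨h1, h2, h3, h4⟩
  · constructor
    · intro _; exact Or.inl h1
    · intro _; exact Or.inr ⟨_, _, _, hx, hy, hz, hb⟩
  · constructor
    · rintro (⟨z, hz, hb⟩ | ⟨x, y, z, hx, hy, hz, hb⟩)
      · right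
        intro hq
        have h5 := h3 z hz (by rw [← hq]; exact hb.1)
        refine h4 z q q hz rfl rfl (Or.inl ⟨hb.1, ?_⟩)
        rw [hb.2, hq, h5]
      · exact absurd hb (h4 x y z hx hy hz)
    · rintro (h5 | h5)
      · exact absurd h5 h1
      · exact Or.inl ⟨e.tail, h2, fun h => h5 h.symm, h3 q rfl h5⟩

theorem exists_top (A : Oracle) (n : ℕ) (h : ∀ x y z : List Bool, x.length = n → y.length = n →
    z.length = n → ¬ Bad A x y z) (S : Finset (List Bool)) (hS : S.Nonempty) :
    (∀ w ∈ S, w.length = n) → ∃ κ ∈ S, ∀ z ∈ S, z ≠ κ → A (pairBits κ z) = true := by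
  classical
  induction hS using Finset.Nonempty.cons_induction with
  | singleton a =>
    intro _
    refine ⟨a, by simp, fun z hz hne => ?_⟩
    simp only [Finset.mem_singleton] at hz
    exact absurd hz hne
  | cons a S ha hS ih =>
    intro hw
    have ha' : a.length = n := hw a (by simp)
    obtain ⟨κ, hκ, h1⟩ := ih fun w hwS => hw w (by simp [hwS])
    have hκ' : κ.length = n := hw κ (by simp [hκ])
    have hne : a ≠ κ := fun h2 => ha (h2 ▸ hκ)
    by_cases h2 : A (pairBits a κ) = true
    · refine ⟨a, by simp, fun z hz hza => ?_⟩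
      have hz' : z.length = n := hw z hz
      simp only [Finset.mem_cons] at hz
      rcases hz with hz | hz
      · exact absurd hz hza
      by_cases hzκ : z = κ
      · rw [hzκ]; exact h2
      by_contra h3
      have h4 : A (pairBits z a) = true := by
        by_contra h5
        refine h a z a ha' hz' ha' (Or.inl ⟨fun h6 => hza h6.symm, ?_⟩)
        rw [Bool.not_eq_true] at h3 h5
        rw [h3, h5]
      exact h a κ z ha' hκ' hz' (Or.inr ⟨⟨hne, h2⟩, ⟨fun h6 => hzκ h6.symm, h1 z hz hzκ⟩,
        ⟨hza, h4⟩⟩)
    · refine ⟨κ, by simp [hκ], fun z hz hzκ => ?_⟩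
      simp only [Finset.mem_cons] at hz
      rcases hz with rfl | hz
      · by_contra h3
        refine h z κ κ ha' hκ' hκ' (Or.inl ⟨hne, ?_⟩)
        rw [Bool.not_eq_true] at h2 h3
        rw [h2, h3]
      · exact h1 z hz hzκ

theorem exists_good (A : Oracle) (n : ℕ) : ∃ e : List Bool, e.length ≤ 5 * n + 3 ∧ Good A n e := by
  classical
  by_cases h : ∃ x y z : List Bool, x.length = n ∧ y.length = n ∧ z.length = n ∧ Bad A x y z
  · obtain ⟨x, y, z, hx, hy, hz, hb⟩ := h
    refine ⟨true :: pairBits x (pairBits y z), ?_, Or.inl ⟨rfl, ?_⟩⟩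
    · rw [List.length_cons, A2.length_pairBits, A2.length_pairBits]
      omega
    · unfold t1 t2 t3
      simp only [List.tail_cons, unpair_pairBits]
      exact ⟨⟨hx, hy, hz⟩, hb⟩
  · push Not at h
    have hfin : ({w : List Bool | w.length = n} : Set (List Bool)).Finite :=
      List.finite_length_eq Bool n
    obtain ⟨κ, hκ, h1⟩ := exists_top A n h hfin.toFinset
      ⟨List.replicate n false, by simp⟩ (by intro w hw; simpa using hw)
    have hκ' : κ.length = n := by simpa using hκ
    refine ⟨false :: κ, ?_, Or.inr ⟨by simp, by simpa using hκ', fun z hz hne => ?_, h⟩⟩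
    · rw [List.length_cons]; omega
    · exact h1 z (by simpa using hz) hne

theorem LB_low (A E : Oracle) : LB A ∈ Low (join A E) 2 := by
  classical
  refine low_of_keys (R := RV (join A E)) (Dd := Dk)
    (r := Polynomial.C 7 * Polynomial.X + Polynomial.C 3)
    (s := (Polynomial.X + Polynomial.C 1) * (Polynomial.C 20 * Polynomial.X + Polynomial.C 14) +
      Polynomial.C 1) (isSig_LB A E) (isFP_RV _)
    (IsFP.of_poly poly_Dk) ?_ ?_
  · intro m
    choose e he1 he2 using exists_good A
    refine ⟨bits ((List.range (m + 1)).map e), ?_, fun v _ => ?_⟩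
    · rw [bits_length]
      refine (sz_le_length_mul _ (20 * m + 13) ?_).trans ?_
      · intro a ha
        simp only [List.mem_map, List.mem_range] at ha
        obtain ⟨i, hi, rfl⟩ := ha
        have h1 := sz_listBool_le (e i)
        have h2 := he1 i
        omega
      · simp only [List.length_map, List.length_range, Polynomial.eval_add, Polynomial.eval_mul,
          Polynomial.eval_C, Polynomial.eval_X]
        ring_nf
        omega
    · unfold RV RH RQ
      simp only [unpair_pairBits, List.length_replicate]
      set n := (unpair v).1.length with hn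
      rcases Nat.lt_or_ge m n with hmn | hmn
      · simp [hmn]
      · have he : ent (bits ((List.range (m + 1)).map e)) n = e n := by
          unfold ent
          rw [unbits_bits, Option.getD_some, List.getD_eq_getElem _ _ (by simp; omega)]
          simp
        rw [he, if_pos]
        rw [Bool.or_eq_true]
        right
        rw [rH_iff]
        rcases he2 n with h1 | ⟨h1, h2, h3, h4⟩
        · exact Or.inl h1
        · exact Or.inr ⟨h1, h2, fun h5 h6 => h3 _ h5 h6, fun h5 h6 h7 => h4 _ _ _ h5 h6 h7⟩
  · intro m κ hR q hq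
    have hgood : Good A q.length (ent κ q.length) := by
      have key : ∀ t : List Bool, t.length ≤ 5 * q.length + 2 →
          rH (ent κ q.length) t ((rQ (ent κ q.length) t).map (join A E)) q.length = true := by
        intro t ht
        have h1 := hR (pairBits (List.replicate q.length true) t) (by
          rw [A2.length_pairBits, List.length_replicate]
          simp only [Polynomial.eval_add, Polynomial.eval_mul, Polynomial.eval_C,
            Polynomial.eval_X]
          omega)
        unfold RV RH RQ at h1
        simp only [unpair_pairBits, List.length_replicate] at h1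
        split_ifs at h1 with h2
        rw [Bool.or_eq_true, decide_eq_true_eq] at h2
        rcases h2 with h2 | h2
        · omega
        · exact h2
      simp only [rH_iff] at key
      rcases key [] (by simp) with h1 | ⟨h1, h2, _⟩
      · exact Or.inl h1
      · refine Or.inr ⟨h1, h2, fun z hz hne => ?_, fun x y z hx hy hz => ?_⟩
        · rcases key (pairBits z []) (by rw [A2.length_pairBits]; simp; omega) with h3 | h3
          · exact absurd h3.1 h1
          · have h4 := h3.2.2.1
            unfold t1 at h4
            simp only [unpair_pairBits] at h4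
            exact h4 hz hne
        · rcases key (pairBits x (pairBits y z)) (by
            rw [A2.length_pairBits, A2.length_pairBits]; omega) with h3 | h3
          · exact absurd h3.1 h1
          · have h4 := h3.2.2.2
            unfold t1 t2 t3 at h4
            simp only [unpair_pairBits] at h4
            exact h4 hx hy hz
    rw [Bool.eq_iff_iff, cha_iff, hgood.mem]
    unfold Dk
    simp

/-! ### The label -/

theorem isDelta_LX (A E : Oracle) : IsDelta (rel (join A E) (LB A)) 2 (LX A) := by
  refine ⟨LX A, ?_, isP_rel _ _⟩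
  -- witness `κ`
  have h1 : Poly (fun y : List Bool => (unpair y).1) := Poly.fst poly_unpair
  have h2 : Poly (fun y : List Bool => (unpair y).2) := Poly.snd poly_unpair
  have hQ : Poly (fun y : List Bool => [true :: (unpair y).1,
      false :: false :: pairBits (unpair y).1 []]) :=
    Poly.cons (Poly.cons (NPC.Poly.const true) h1) (Poly.cons (Poly.cons (NPC.Poly.const false)
      (Poly.cons (NPC.Poly.const false) (poly_pairBits h1 (NPC.Poly.const [])))) (NPC.Poly.const []))
  have k1 : Poly (fun p : List Bool × List Bool => (unpair p.1).1) := h1.comp (Poly.fst Poly.id)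
  have k2 : Poly (fun p : List Bool × List Bool => (unpair p.1).2) := h2.comp (Poly.fst Poly.id)
  have k3 : Poly (fun p : List Bool × List Bool => p.2) := Poly.snd Poly.id
  have hH : Poly (fun p : List Bool × List Bool =>
      if ((unpair p.1).2 = (unpair p.1).2.map (fun _ => true) ∧
        (unpair p.1).1.length = (unpair p.1).2.length) ∧ p.2 = [false, true]
      then [true] else []) :=
    Poly.ite (Poly.decide_and (Poly.decide_and (Poly.decide_eq k2 (NPC.Poly.map
      (F := fun _ _ => true) k2 (NPC.Poly.const true))) (Poly.decide_eq (Poly.length k1)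
        (Poly.length k2))) (Poly.decide_eq k3 (NPC.Poly.const _))) (NPC.Poly.const _)
      (NPC.Poly.const _)
  refine ⟨_, Polynomial.X, IsFP.tt hQ hH, fun x => ?_⟩
  unfold LX
  simp only [Quant, unpair_pairBits, Set.mem_ofPred_eq, Polynomial.eval_X, List.map_const',
    List.map_cons, List.map_nil]
  have e1 : ∀ κ : List Bool, rel (join A E) (LB A) (true :: κ) = cha (LB A) κ := fun _ => rfl
  have e2 : ∀ κ : List Bool, rel (join A E) (LB A) (false :: false :: κ) = A κ := fun _ => rfl
  simp only [e1, e2]
  constructor
  · rintro ⟨h3, κ, h4, h5, h6⟩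
    refine ⟨κ, h4.le, ?_⟩
    rw [if_pos]
    refine ⟨⟨h3, h4⟩, ?_⟩
    rw [h6]
    have h7 : cha (LB A) κ = false := by
      rw [Bool.eq_false_iff, ne_eq, cha_iff]
      exact h5
    rw [h7]
  · rintro ⟨κ, _, h3⟩
    split_ifs at h3 with h4
    obtain ⟨⟨h4, h5⟩, h6⟩ := h4
    simp only [List.cons.injEq, and_true] at h6
    refine ⟨h4, κ, h5, ?_, h6.2⟩
    rw [← cha_iff, h6.1]
    simp

end Pool.Agent.W2helper61.LH
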