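import Pool.Agent.W2helper61.LH.Ord
import Pool.Agent.W2helper58.GU.Fin

/-! Tally languages are in `L^_2`; the tally language of a generic column is not in `P`. -/

set_option autoImplicit false

namespace Pool.Agent.W2helper61.LH

open Pool.Agent.NPC Pool.Agent.H622R2 Pool.Agent.H620R2.Gauge Pool.Agent.H591R3.PHG
  Pool.Agent.TH678.GC
open Pool.Agent.W2helper71.GU (QS QS_card QS_congr poly_lt exists_unasked mod mod_le mod_gt
  mod_congr)
open Pool.Agent.W2helper58.GU (tally tv isFP_tv tv_iff)

theorem tally_sig (A E : Oracle) : IsSig (join A E) 1 (tally A) := by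
  refine ⟨_, Polynomial.X, isFP_tv [false] (join A E), fun x => ?_⟩
  simp only [Quant, tv_iff, Polynomial.eval_X]
  constructor
  · rintro ⟨h1, w, h2, h3⟩
    exact ⟨w, h2.le, h1, h2, h3⟩
  · rintro ⟨w, _, h1, h2, h3⟩
    exact ⟨h1, w, h2, h3⟩

/-- `i` ones -/
def pre (x : List Bool) (i : ℕ) : List Bool :=
  (x.zipIdx.filter (fun p => decide (p.2 < i))).map (fun _ => true)

theorem pre_len (x : List Bool) (i : ℕ) : ∀ k : ℕ,
    ((x.zipIdx k).filter (fun p => decide (p.2 < i))).length = min (i - k) x.length := by
  induction x with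
  | nil => intro k; simp
  | cons b x ih =>
    intro k
    rw [List.zipIdx_cons, List.filter_cons]
    by_cases h : k < i
    · rw [if_pos (by simpa using h), List.length_cons, ih, List.length_cons]
      omega
    · rw [if_neg (by simpa using h), ih, List.length_cons]
      omega

theorem pre_eq {x : List Bool} {i : ℕ} (h : i ≤ x.length) : pre x i = List.replicate i true := by
  unfold pre
  rw [List.map_const', pre_len x i 0]
  congr 1
  omega

/-- the questions for the table -/
def tQ (x : List Bool) : List (List Bool) :=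
  (List.range (x.length + 1)).map (fun i => true :: pre x i)

theorem poly_tQ : Poly tQ := by
  unfold tQ pre
  refine NPC.Poly.map (F := fun (x : List Bool) (i : ℕ) =>
    true :: (x.zipIdx.filter (fun p => decide (p.2 < i))).map (fun _ => true))
    (UPoly.range (UPoly.add (UPoly.length Poly.id) (UPoly.const 1))) ?_
  refine Poly.cons (NPC.Poly.const true) (NPC.Poly.map (F := fun _ _ => true) ?_
    (NPC.Poly.const true))
  exact Poly.filter (p := fun (a : List Bool × ℕ) (p : Bool × ℕ) => decide (p.2 < a.2))
    (Poly.zipIdx (Poly.fst Poly.id)) (Poly.decide_lt (Poly.snd (Poly.snd Poly.id))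
    (Poly.snd (Poly.fst Poly.id)))

/-- membership according to the table -/
def Dt (κ q : List Bool) : Bool := decide (q = q.map (fun _ => true)) && κ.getD q.length false

theorem poly_Dt : Poly (fun z : List Bool => [Dt (unpair z).1 (unpair z).2]) := by
  have h1 : Poly (fun y : List Bool => (unpair y).1) := Poly.fst poly_unpair
  have h2 : Poly (fun y : List Bool => (unpair y).2) := Poly.snd poly_unpair
  unfold Dt
  exact Poly.cons (Poly.and (Poly.decide_eq h2 (NPC.Poly.map (F := fun _ _ => true) h2
    (NPC.Poly.const true))) (Poly.getD h1 (Poly.length h2) (NPC.Poly.const false)))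
    (NPC.Poly.const [])

/-- tally languages in `NP` are in `L^_2` -/
theorem lowHat_of_tally {O : Oracle} {T : Set (List Bool)} (hT : IsSig O 1 T)
    (hT2 : ∀ x ∈ T, x = List.replicate x.length true) : T ∈ LowHat O 2 := by
  have hK : IsFP (rel O T) (fun x => (tQ x).map (rel O T)) :=
    IsFP.tt (H := fun p => p.2) poly_tQ (Poly.snd Poly.id)
  refine lowHat_of_keys (Dd := Dt) hT hT hK (IsFP.of_poly poly_Dt) fun x q hq => ?_
  unfold Dt tQ
  rw [List.map_map, List.getD_eq_getElem _ _ (by simp; omega), List.getElem_map,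
    List.getElem_range, List.map_const']
  change (decide (q = List.replicate q.length true) && cha T (pre x q.length)) = cha T q
  rw [pre_eq hq]
  by_cases h : q = List.replicate q.length true
  · rw [← h]; simp
  · have h1 : cha T q = false := by
      rw [Bool.eq_false_iff, ne_eq, cha_iff]
      exact fun h2 => h (hT2 q h2)
    rw [h1]
    simp [h]

theorem dense_T (E : Oracle) (M : Alg) (A₀ : Oracle) (ℓ : ℕ) :
    ∃ A : Oracle, (∀ u : List Bool, u.length ≤ ℓ → A u = A₀ u) ∧
      ∃ x : List Bool, ¬ (x ∈ tally A ↔ acc M (join A E) x = [true]) := by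
  classical
  obtain ⟨n, hn, hp⟩ := poly_lt M.p ℓ
  set x := List.replicate n true with hx
  have hxl : x.length = n := by rw [hx, List.length_replicate]
  set B₁ : Oracle := mod A₀ ℓ [] with hB₁
  have hlow : ∀ (S : List (List Bool)), (∀ w ∈ S, w.length = n) → ∀ u : List Bool, u.length ≤ ℓ →
      mod A₀ ℓ S u = A₀ u := fun S hS u hu => mod_le A₀ ℓ S (fun w hw => by
    rw [hS w hw]; exact hn) u hu
  have hmem : ∀ A : Oracle, x ∈ tally A ↔ ∃ w : List Bool, w.length = n ∧ A w = true := by
    intro A
    unfold tally
    rw [Set.mem_ofPred_eq, hxl]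
    exact and_iff_right rfl
  by_cases hacc : acc M (join B₁ E) x = [true]
  · refine ⟨B₁, hlow [] (by simp), x, fun hiff => ?_⟩
    obtain ⟨w, hw1, hw2⟩ := (hmem _).1 (hiff.2 hacc)
    rw [hB₁, mod_gt A₀ ℓ [] w (by omega)] at hw2
    simp at hw2
  · obtain ⟨w, hw1, hw2⟩ := exists_unasked (QS M (join B₁ E) x) (fun w => false :: w)
      (fun a b h => by simpa using h) (n := n) (lt_of_le_of_lt (QS_card _ _ _) (by rw [hxl]; exact hp))
    set B : Oracle := mod A₀ ℓ [w] with hB
    refine ⟨B, hlow [w] (by simpa using hw1), x, fun hiff => ?_⟩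
    have h1 : acc M (join B E) x = [true] := by
      refine hiff.1 ((hmem _).2 ⟨w, hw1, ?_⟩)
      rw [hB, mod_gt A₀ ℓ [w] w (by omega)]
      simp
    have h2 : ∀ q ∈ QS M (join B₁ E) x, join B E q = join B₁ E q := by
      intro q hq
      rcases q with _ | ⟨c, q⟩
      · rfl
      cases c with
      | true => rfl
      | false =>
        change B q = B₁ q
        rw [hB, hB₁]
        apply mod_congr
        have : q ≠ w := fun h => hw2 (h ▸ hq)
        simp [this]
    unfold acc at h1 hacc
    rw [(QS_congr M _ _ x h2).2] at h1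
    exact hacc h1

end Pool.Agent.W2helper61.LH
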