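import Pool.Agent.W2helper61.LH.BI
import Pool.Agent.W2helper61.LH.LB
import Pool.Agent.W2helper61.LH.Tal
import Pool.Agent.W2helper17.GU.PH

/-! Generic columns. -/

set_option autoImplicit false

namespace Pool.Agent.W2helper61.LH

open Pool.Agent.NPC Pool.Agent.H622R2 Pool.Agent.H620R2.Gauge Pool.Agent.H591R3.PHG
  Pool.Agent.TH678.GC Pool.Agent.W2helper58.GU Filter

/-- agreement up to the length `ℓ` -/
def Ag (ℓ : ℕ) (A A' : Oracle) : Prop := ∀ u : List Bool, u.length ≤ ℓ → A' u = A u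

theorem Ag.mono {ℓ ℓ' : ℕ} {A A' : Oracle} (h : Ag ℓ' A A') (hl : ℓ ≤ ℓ') : Ag ℓ A A' :=
  fun u hu => h u (hu.trans hl)

theorem isOpen_ag (ℓ : ℕ) (A : Oracle) : IsOpen {A' : Oracle | Ag ℓ A A'} := by
  set W := (List.finite_length_le Bool ℓ).toFinset with hW
  have h : {A' : Oracle | Ag ℓ A A'} = ⋂ u ∈ W, {A' : Oracle | A' u = A u} := by
    ext A'
    simp only [Set.mem_iInter, Set.mem_ofPred_eq]
    constructor
    · intro h u hu
      exact h u (by simpa [hW] using hu)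
    · intro h u hu
      exact h u (by simpa [hW] using hu)
  rw [h]
  refine isOpen_biInter_finset fun u _ => ?_
  have hc : Continuous (fun A' : Oracle => A' u) := continuous_apply u
  exact hc.isOpen_preimage {A u} (isOpen_discrete _)

theorem isOpen_of_ag {P : Set Oracle} (h : ∀ A ∈ P, ∃ ℓ : ℕ, ∀ A', Ag ℓ A A' → A' ∈ P) :
    IsOpen P := by
  rw [isOpen_iff_forall_mem_open]
  intro A hA
  obtain ⟨ℓ, hℓ⟩ := h A hA
  exact ⟨_, fun A' hA' => hℓ A' hA', isOpen_ag ℓ A, fun _ _ => rfl⟩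

theorem exists_ag {P : Set Oracle} (hP : IsOpen P) {A : Oracle} (hA : A ∈ P) :
    ∃ ℓ : ℕ, ∀ A', Ag ℓ A A' → A' ∈ P := by
  obtain ⟨I, u, hu1, hu2⟩ := isOpen_pi_iff.1 hP A hA
  refine ⟨I.sup List.length, fun A' hA' => hu2 fun z hz => ?_⟩
  rw [hA' z (Finset.le_sup (f := List.length) hz)]
  exact (hu1 z hz).2

theorem dense_of_ag {P : Set Oracle} (h : ∀ (A : Oracle) (ℓ : ℕ), ∃ A', Ag ℓ A A' ∧ A' ∈ P) :
    Dense P := by
  rw [dense_iff_inter_open]
  rintro V hV ⟨A, hA⟩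
  obtain ⟨ℓ, hℓ⟩ := exists_ag hV hA
  obtain ⟨A', h1, h2⟩ := h A ℓ
  exact ⟨A', hℓ A' h1, h2⟩

/-- a generic column is in every dense open set -/
theorem gen_dense {P : Set Oracle} (h1 : ∀ A ∈ P, ∃ ℓ : ℕ, ∀ A', Ag ℓ A A' → A' ∈ P)
    (h2 : ∀ (A : Oracle) (ℓ : ℕ), ∃ A', Ag ℓ A A' ∧ A' ∈ P) : ∀ᶠ A in residual Oracle, A ∈ P :=
  residual_of_dense_open (isOpen_of_ag h1) (dense_of_ag h2)

/-- If a closed property holds for a generic column, then it holds for all columns close to it. -/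
theorem gen_force {ι : Type} (W : ι → Oracle → Prop)
    (hW : ∀ i A, ¬ W i A → ∃ ℓ : ℕ, ∀ A', Ag ℓ A A' → ¬ W i A') :
    ∀ᶠ A in residual Oracle, (∀ i, W i A) → ∃ ℓ : ℕ, ∀ A', Ag ℓ A A' → ∀ i, W i A' := by
  have hD : IsOpen {A : Oracle | ∃ i, ¬ W i A} := by
    refine isOpen_of_ag ?_
    rintro A ⟨i, hi⟩
    obtain ⟨ℓ, hℓ⟩ := hW i A hi
    exact ⟨ℓ, fun A' hA' => ⟨i, hℓ A' hA'⟩⟩
  have hU : IsOpen ({A : Oracle | ∃ i, ¬ W i A} ∪ interior {A : Oracle | ∃ i, ¬ W i A}ᶜ) :=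
    hD.union isOpen_interior
  have hd : Dense ({A : Oracle | ∃ i, ¬ W i A} ∪ interior {A : Oracle | ∃ i, ¬ W i A}ᶜ) := by
    intro A
    rw [interior_compl, closure_union]
    by_cases h : A ∈ closure {A : Oracle | ∃ i, ¬ W i A}
    · exact Or.inl h
    · exact Or.inr (subset_closure h)
  filter_upwards [residual_of_dense_open hU hd] with A hA hA2
  rcases hA with ⟨i, hi⟩ | hA
  · exact absurd (hA2 i) hi
  · obtain ⟨ℓ, hℓ⟩ := exists_ag isOpen_interior hA
    refine ⟨ℓ, fun A' hA' i => ?_⟩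
    have h3 : A' ∈ {A : Oracle | ∃ i, ¬ W i A}ᶜ := interior_subset (hℓ A' hA')
    by_contra h4
    exact h3 ⟨i, h4⟩

/-! ### Locality -/

theorem acc_ag (E : Oracle) (M : Alg) (A : Oracle) (y : List Bool) :
    ∃ ℓ, ∀ A', Ag ℓ A A' → LH.acc M (join A E) y = LH.acc M (join A' E) y := by
  obtain ⟨qb, hqb⟩ := LH.acc_congr M
  refine ⟨qb.eval y.length, fun A' hA' => hqb _ _ _ fun q hq => ?_⟩
  exact join_congr (n := qb.eval y.length) (fun u hu => (hA' u hu).symm) (fun _ _ => rfl) q hq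

theorem quant_ag (E : Oracle) (M : Alg) (A : Oracle) (m : ℕ) : ∀ (k : ℕ) (b : Bool) (y : List Bool),
    ∃ ℓ, ∀ A', Ag ℓ A A' → (Quant m (LH.acc M (join A E)) k b y ↔
      Quant m (LH.acc M (join A' E)) k b y) := by
  intro k
  induction k with
  | zero =>
    intro b y
    obtain ⟨ℓ, hℓ⟩ := acc_ag E M A y
    refine ⟨ℓ, fun A' hA' => ?_⟩
    cases b <;> simp only [Quant, hℓ A' hA']
  | succ k ih =>
    intro b y
    set W := (List.finite_length_le Bool m).toFinset with hW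
    choose f hf using fun w : List Bool => ih (!b) (pairBits w y)
    refine ⟨W.sup f, fun A' hA' => ?_⟩
    have key : ∀ w : List Bool, w.length ≤ m → (Quant m (LH.acc M (join A E)) k (!b) (pairBits w y) ↔
        Quant m (LH.acc M (join A' E)) k (!b) (pairBits w y)) := fun w hw =>
      hf w A' (hA'.mono (Finset.le_sup (f := f) (by simpa [hW] using hw)))
    cases b with
    | true =>
      simp only [Quant]
      exact exists_congr fun w => and_congr_right fun hw => key w hw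
    | false =>
      simp only [Quant]
      exact forall_congr' fun w => imp_congr_right fun hw => key w hw

theorem lang_ag (k : ℕ) (A : Oracle) (x : List Bool) :
    ∃ ℓ, ∀ A', Ag ℓ A A' → (x ∈ Pool.Agent.H591R3.PHG.lang k A ↔
      x ∈ Pool.Agent.H591R3.PHG.lang k A') := by
  refine ⟨x.length + (parse (k + 1) x).1.sum + (unpair (parse (k + 1) x).2).1.length,
    fun A' hA' => ?_⟩
  unfold Pool.Agent.H591R3.PHG.lang
  rw [Set.mem_ofPred_eq, Set.mem_ofPred_eq, foldr_congr _ x fun u hu => (hA' u hu).symm]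

theorem NL_ag (E : Oracle) (M : Alg) (p : Polynomial ℕ) (A : Oracle) (y : List Bool) :
    ∃ ℓ, ∀ A', Ag ℓ A A' → (y ∈ NL M p (join A E) ↔ y ∈ NL M p (join A' E)) := by
  obtain ⟨ℓ, hℓ⟩ := quant_ag E M A (p.eval y.length) 1 true y
  exact ⟨ℓ, fun A' hA' => hℓ A' hA'⟩

/-- locality of the algorithms relative to a language in `NP` -/
theorem accNL_ag (E : Oracle) (M M₁ : Alg) (p : Polynomial ℕ) (A : Oracle) (x : List Bool) :
    ∃ ℓ, ∀ A', Ag ℓ A A' → LH.acc M (rel (join A E) (NL M₁ p (join A E))) x =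
      LH.acc M (rel (join A' E) (NL M₁ p (join A' E))) x := by
  obtain ⟨qb, hqb⟩ := LH.acc_congr M
  set W := (List.finite_length_le Bool (qb.eval x.length)).toFinset with hW
  choose f hf using fun y : List Bool => NL_ag E M₁ p A y
  refine ⟨max (qb.eval x.length) (W.sup f), fun A' hA' => hqb _ _ _ fun q hq => ?_⟩
  rw [rel_eq, rel_eq]
  refine join_congr (n := qb.eval x.length) (fun u hu => ?_) (fun u hu => ?_) q hq
  · exact join_congr (n := qb.eval x.length)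
      (fun v hv => (hA' v (hv.trans (le_max_left _ _))).symm) (fun _ _ => rfl) u hu
  · rw [Bool.eq_iff_iff, cha_iff, cha_iff]
    exact hf u A' (hA'.mono ((Finset.le_sup (f := f) (by simpa [hW] using hu)).trans
      (le_max_right _ _)))

theorem Bad_ag {A A' : Oracle} {n : ℕ} (h : ∀ u : List Bool, u.length ≤ 3 * n + 1 → A u = A' u)
    {x y z : List Bool} (hx : x.length = n) (hy : y.length = n) (hz : z.length = n) :
    Bad A x y z ↔ Bad A' x y z := by
  have h1 : ∀ {a b : List Bool}, a.length = n → b.length = n →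
      A (pairBits a b) = A' (pairBits a b) := by
    intro a b ha hb
    apply h
    rw [A2.length_pairBits]
    omega
  unfold Bad bt
  rw [h1 hx hy, h1 hy hx, h1 hy hz, h1 hz hx]

theorem LB_ag {A A' : Oracle} {q : List Bool}
    (h : ∀ u : List Bool, u.length ≤ 3 * q.length + 1 → A u = A' u) : q ∈ LB A ↔ q ∈ LB A' := by
  unfold LB
  rw [Set.mem_ofPred_eq, Set.mem_ofPred_eq]
  refine or_congr (exists_congr fun z => and_congr_right fun hz => ?_)
    (exists_congr fun x => exists_congr fun y => exists_congr fun z =>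
      and_congr_right fun hx => and_congr_right fun hy => and_congr_right fun hz =>
        Bad_ag h hx hy hz)
  unfold bt
  rw [h (pairBits z q) (by rw [A2.length_pairBits]; omega)]

theorem LX_ag (A : Oracle) (x : List Bool) :
    ∃ ℓ, ∀ A', Ag ℓ A A' → (x ∈ LX A ↔ x ∈ LX A') := by
  refine ⟨3 * x.length + 1, fun A' hA' => ?_⟩
  unfold LX
  rw [Set.mem_ofPred_eq, Set.mem_ofPred_eq]
  refine and_congr_right fun _ => exists_congr fun κ => and_congr_right fun hκ => ?_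
  rw [LB_ag (A := A) (A' := A') fun u hu => (hA' u (by rw [hκ] at hu; exact hu)).symm,
    hA' (pairBits κ []) (by rw [A2.length_pairBits]; simp; omega)]

/-! ### The generic properties -/

theorem gen_PH : ∀ᶠ A in residual Oracle, ∀ (k : ℕ) (M : Alg) (p : Polynomial ℕ),
    ∃ x : List Bool, ¬ (x ∈ Pool.Agent.H591R3.PHG.lang k A ↔
      Quant (p.eval x.length) (LH.acc M (join A E0)) k true x) := by
  have hcn := CC.poly_countable
  have hc2 : Countable Alg := Alg.countable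
  refine eventually_countable_forall.2 fun k => eventually_countable_forall.2 fun M =>
    eventually_countable_forall.2 fun p => ?_
  refine gen_dense (P := {A | ∃ x : List Bool, ¬ (x ∈ Pool.Agent.H591R3.PHG.lang k A ↔
    Quant (p.eval x.length) (LH.acc M (join A E0)) k true x)}) ?_ ?_
  · rintro A ⟨x, hx⟩
    obtain ⟨ℓ₁, h1⟩ := lang_ag k A x
    obtain ⟨ℓ₂, h2⟩ := quant_ag E0 M A (p.eval x.length) k true x
    refine ⟨max ℓ₁ ℓ₂, fun A' hA' => ⟨x, ?_⟩⟩
    rwa [← h1 A' (hA'.mono (le_max_left _ _)), ← h2 A' (hA'.mono (le_max_right _ _))]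
  · intro A ℓ
    obtain ⟨A', h1, x, h2⟩ := Pool.Agent.W2helper17.GU.s_PH E0 k M p A ℓ
    exact ⟨A', h1, x, h2⟩

theorem gen_T : ∀ᶠ A in residual Oracle, ∀ (M : Alg),
    ∃ x : List Bool, ¬ (x ∈ tally A ↔ LH.acc M (join A E0) x = [true]) := by
  have hc2 : Countable Alg := Alg.countable
  refine eventually_countable_forall.2 fun M => ?_
  refine gen_dense (P := {A | ∃ x : List Bool, ¬ (x ∈ tally A ↔
    LH.acc M (join A E0) x = [true])}) ?_ ?_
  · rintro A ⟨x, hx⟩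
    obtain ⟨ℓ₂, h2⟩ := acc_ag E0 M A x
    refine ⟨max x.length ℓ₂, fun A' hA' => ⟨x, ?_⟩⟩
    rwa [← tally_congr (B := A) fun u hu => (hA' u (hu.trans (le_max_left _ _))).symm,
      ← h2 A' (hA'.mono (le_max_right _ _))]
  · intro A ℓ
    obtain ⟨A', h1, x, h2⟩ := dense_T E0 M A ℓ
    exact ⟨A', h1, x, h2⟩

theorem gen_LX : ∀ᶠ A in residual Oracle, ∀ (M M₁ : Alg) (p : Polynomial ℕ),
    ∃ x : List Bool, ¬ (x ∈ LX A ↔
      LH.acc M (rel (join A E0) (NL M₁ p (join A E0))) x = [true]) := by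
  have hcn := CC.poly_countable
  have hc2 : Countable Alg := Alg.countable
  refine eventually_countable_forall.2 fun M => eventually_countable_forall.2 fun M₁ =>
    eventually_countable_forall.2 fun p => ?_
  refine gen_dense (P := {A | ∃ x : List Bool, ¬ (x ∈ LX A ↔
      LH.acc M (rel (join A E0) (NL M₁ p (join A E0))) x = [true])}) ?_ ?_
  · rintro A ⟨x, hx⟩
    obtain ⟨ℓ₁, h1⟩ := LX_ag A x
    obtain ⟨ℓ₂, h2⟩ := accNL_ag E0 M M₁ p A x
    refine ⟨max ℓ₁ ℓ₂, fun A' hA' => ⟨x, ?_⟩⟩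
    rwa [← h1 A' (hA'.mono (le_max_left _ _)), ← h2 A' (hA'.mono (le_max_right _ _))]
  · intro A ℓ
    obtain ⟨A', h1, x, h2⟩ := dense_LX E0 M M₁ p A ℓ
    exact ⟨A', h1, x, h2⟩

/-- the strings with witnesses for both algorithms -/
def Both (M₁ M₀ : Alg) (p₁ p₀ : Polynomial ℕ) (x : List Bool) (A : Oracle) : Prop :=
  (∃ w : List Bool, w.length ≤ p₁.eval x.length ∧
      LH.acc M₁ (join A E0) (pairBits w x) = [true]) ∧
    ∃ w : List Bool, w.length ≤ p₀.eval x.length ∧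
      LH.acc M₀ (join A E0) (pairBits w x) = [true]

theorem gen_C : ∀ᶠ A in residual Oracle, ∀ (M₁ M₀ : Alg) (p₁ p₀ : Polynomial ℕ),
    (∀ x, ¬ Both M₁ M₀ p₁ p₀ x A) →
      ∃ ℓ, ∀ A', Ag ℓ A A' → ∀ x, ¬ Both M₁ M₀ p₁ p₀ x A' := by
  have hcn := CC.poly_countable
  have hc2 : Countable Alg := Alg.countable
  refine eventually_countable_forall.2 fun M₁ => eventually_countable_forall.2 fun M₀ =>
    eventually_countable_forall.2 fun p₁ => eventually_countable_forall.2 fun p₀ => ?_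
  refine gen_force (ι := List Bool) (fun x A => ¬ Both M₁ M₀ p₁ p₀ x A) fun x A hA => ?_
  rw [not_not] at hA
  obtain ⟨⟨w, hw, h1⟩, w₀, hw₀, h0⟩ := hA
  obtain ⟨ℓ₁, k1⟩ := acc_ag E0 M₁ A (pairBits w x)
  obtain ⟨ℓ₀, k0⟩ := acc_ag E0 M₀ A (pairBits w₀ x)
  refine ⟨max ℓ₁ ℓ₀, fun A' hA' => ?_⟩
  rw [not_not]
  refine ⟨⟨w, hw, ?_⟩, w₀, hw₀, ?_⟩
  · rw [← k1 A' (hA'.mono (le_max_left _ _))]
    exact h1
  · rw [← k0 A' (hA'.mono (le_max_right _ _))]
    exact h0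

/-- relative to a generic column `NP ∩ coNP = P` -/
theorem np_conp {A : Oracle} (hC : ∀ (M₁ M₀ : Alg) (p₁ p₀ : Polynomial ℕ),
    (∀ x, ¬ Both M₁ M₀ p₁ p₀ x A) → ∃ ℓ, ∀ A', Ag ℓ A A' → ∀ x, ¬ Both M₁ M₀ p₁ p₀ x A')
    {L : Set (List Bool)} (h1 : IsSig (join A E0) 1 L) (h0 : IsSig (join A E0) 1 Lᶜ) :
    IsP (join A E0) L := by
  obtain ⟨V₁, p₁, hV₁, hL₁⟩ := h1
  obtain ⟨V₀, p₀, hV₀, hL₀⟩ := h0
  obtain ⟨M₁, _, rfl⟩ := LH.exists_acc hV₁
  obtain ⟨M₀, _, rfl⟩ := LH.exists_acc hV₀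
  obtain ⟨ℓ, hℓ⟩ := hC M₁ M₀ p₁ p₀ fun x hx => (hL₀ x).2 hx.2 ((hL₁ x).2 hx.1)
  exact isP_of_forced A M₁ M₀ p₁ p₀ ℓ (fun A' hA' x => hℓ A' hA' x) L (fun x => hL₁ x)
    (fun x => hL₀ x)

/-- `P` is contained in every level -/
theorem P_low {O : Oracle} {B : Set (List Bool)} (hB : IsP O B) (k : ℕ) : B ∈ Low O k :=
  ⟨(isP_sig0.2 hB).succ, fun _ hX => (le_rel hB).isSig hX⟩

theorem P_lowHat1 {O : Oracle} {B : Set (List Bool)} (hB : IsP O B) : B ∈ LowHat O 1 := by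
  refine ⟨(isP_sig0.2 hB).succ, ?_⟩
  rintro X ⟨N, hN, hX⟩
  have hN' : IsP O N := (le_rel hB).isP (isP_sig0.1 hN)
  refine ⟨N, isP_sig0.2 hN', ?_⟩
  exact (show Le (rel (rel O B) N) (rel O N) from
    isFP_join (Le.isFP (show Le O (rel O N) from isFP_left _ _) (le_rel hB)) (isFP_right _ _)).isP hX

theorem low0 (O : Oracle) : Low O 0 = P O := by
  ext B
  constructor
  · rintro ⟨_, h⟩
    exact isP_sig0.1 (h B (isP_sig0.2 (isP_rel O B)))
  · intro h
    exact P_low h 0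

theorem lowHat1 (O : Oracle) : LowHat O 1 = P O := by
  ext B
  constructor
  · rintro ⟨_, h⟩
    obtain ⟨N, hN, hB⟩ := h B ⟨B, isP_sig0.2 (isP_rel O B), isP_rel _ B⟩
    exact (le_rel (isP_sig0.1 hN)).isP hB
  · exact P_lowHat1

theorem low_main : ∃ O : Oracle,
    (∀ k : ℕ, ∃ L, IsSig O (k + 1) L ∧ ¬ IsSig O k L) ∧
    Low O 0 = P O ∧ LowHat O 1 = P O ∧ Low O 1 = P O ∧
    ¬ LowHat O 2 ⊆ Low O 1 ∧ ¬ Low O 2 ⊆ LowHat O 2 := by
  obtain ⟨A, h1, h2, h3, h4⟩ := (dense_of_mem_residual (gen_PH.and (gen_T.and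
    (gen_LX.and gen_C)))).nonempty
  have hL1 : Low (join A E0) 1 = P (join A E0) := by
    ext B
    constructor
    · rintro ⟨hB, h⟩
      refine np_conp h4 hB (h Bᶜ ?_)
      refine (isP_sig0.2 ?_ : IsSig (rel (join A E0) B) 0 Bᶜ).succ
      have h5 := IsFP.comp (IsFP.of_poly (A := rel (join A E0) B)
        (F := fun v => if v = [true] then [] else [true]) (Poly.ite (Poly.decide_eq Poly.id
          (NPC.Poly.const _)) (NPC.Poly.const _) (NPC.Poly.const _)))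
        (isFP_right (join A E0) (cha B))
      refine ⟨_, h5, fun x => ?_⟩
      rw [Set.mem_compl_iff, ← cha_iff]
      cases cha B x <;> simp
    · intro h
      exact P_low h 1
  refine ⟨join A E0, fun k => ⟨Pool.Agent.H591R3.PHG.lang k A,
    Pool.Agent.W2helper17.GU.s_SIG _ _ _, ?_⟩, low0 _, lowHat1 _, hL1, fun h => ?_, fun h => ?_⟩
  · rintro ⟨V, p, hV, hL⟩
    obtain ⟨M, _, rfl⟩ := LH.exists_acc hV
    obtain ⟨x, hx⟩ := h1 k M p
    exact hx (hL x)
  · have h5 := h (lowHat_of_tally (tally_sig A E0) fun x hx => hx.1)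
    rw [hL1] at h5
    obtain ⟨V, hV, hL⟩ := h5
    obtain ⟨M, _, rfl⟩ := LH.exists_acc hV
    obtain ⟨x, hx⟩ := h2 M
    exact hx (hL x)
  · obtain ⟨_, h5⟩ := h (LB_low A E0)
    obtain ⟨N, ⟨V₁, p, hV₁, hN⟩, V, hV, hL⟩ := h5 _ (isDelta_LX A E0)
    obtain ⟨M₁, _, rfl⟩ := LH.exists_acc hV₁
    obtain rfl : N = NL M₁ p (join A E0) := by
      ext y
      exact hN y
    obtain ⟨M, _, rfl⟩ := LH.exists_acc hV
    obtain ⟨x, hx⟩ := h3 M M₁ p
    exact hx (hL x)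

end Pool.Agent.W2helper61.LH
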