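import Pool.Agent.W2helper61.LH.Col

/-! Forced complementary languages in `NP` are in `P`. -/

set_option autoImplicit false

namespace Pool.Agent.W2helper61.LH

open Pool.Agent.NPC Pool.Agent.H622R2 Pool.Agent.H620R2.Gauge Pool.Agent.H591R3.PHG
  Pool.Agent.TH678.GC
open Pool.Agent.W2helper58.GU (evr evr_succ clip cw Ub ue isFP_ue dx tm)
open Pool.Agent.W2helper71.GU (qs qs_length qs_congr)

theorem evr_shift (D : List Bool → List Bool) (O : Oracle) (t : ℕ) (pr : List Bool) :
    ∀ (n : ℕ) (a : List Bool), evr D O t n (pr ++ a) = evr (fun b => D (pr ++ b)) O t n a := by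
  intro n
  induction n with
  | zero => intro a; rfl
  | succ n ih =>
    intro a
    rw [evr_succ, evr_succ, List.append_assoc, ih]

theorem evr_ask {D : List Bool → List Bool} {O : Oracle} {t : ℕ} {Q : List (List Bool)}
    (hQ : ∀ q ∈ Q, q.length ≤ t)
    (hD : ∀ a : List Bool, a.length < Q.length → D a = false :: Q.getD a.length []) (n : ℕ) :
    evr D O t (Q.length + n) [] = evr (fun b => D (Q.map O ++ b)) O t n [] := by
  have key : ∀ k ≤ Q.length, evr D O t (k + n) ((Q.map O).take (Q.length - k)) =
      evr D O t n (Q.map O) := by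
    intro k
    induction k with
    | zero =>
      intro _
      rw [zero_add, Nat.sub_zero, List.take_of_length_le (by simp)]
    | succ k ih =>
      intro hk
      have hl : ((Q.map O).take (Q.length - (k + 1))).length = Q.length - (k + 1) := by
        rw [List.length_take, List.length_map]; omega
      have hi : Q.length - (k + 1) < Q.length := by omega
      have hg : D ((Q.map O).take (Q.length - (k + 1))) = false :: Q[Q.length - (k + 1)] := by
        rw [hD _ (by rw [hl]; exact hi), hl, List.getD_eq_getElem _ _ hi]
      have hc : clip t (D ((Q.map O).take (Q.length - (k + 1)))) =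
          false :: Q[Q.length - (k + 1)] := by
        unfold clip
        rw [hg, if_neg]
        have := hQ _ (List.getElem_mem hi)
        rw [List.length_cons]
        omega
      have e : k + 1 + n = (k + n) + 1 := by ring
      rw [e, evr_succ, hc, List.head?_cons, if_pos rfl, List.tail_cons, ← ih (by omega)]
      congr 1
      have e2 : Q.length - k = Q.length - (k + 1) + 1 := by omega
      rw [e2, List.take_succ_eq_append_getElem (by rw [List.length_map]; exact hi)]
      simp
  have h1 := key Q.length le_rfl
  rw [Nat.sub_self, List.take_zero] at h1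
  rw [h1]
  have h2 := evr_shift D O t (Q.map O) n []
  rw [List.append_nil] at h2
  exact h2

theorem qs_len {M : Alg} {b : Polynomial ℕ} (hb : ∀ x a : List Bool,
    a.length ≤ M.p.eval x.length → (M.D (pairBits x a)).length ≤ b.eval x.length) (O : Oracle)
    (z : List Bool) : ∀ (n : ℕ) (a : List Bool), a.length + n ≤ M.p.eval z.length →
    ∀ q ∈ qs M O z n a, q.length ≤ b.eval z.length := by
  intro n
  induction n with
  | zero => intro a _ q hq; simp [qs] at hq
  | succ n ih =>
    intro a ha q hq
    have h1 := hb z a (by omega)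
    rcases hD : M.D (pairBits z a) with _ | ⟨c, q'⟩
    · simp [qs, hD] at hq
    · cases c with
      | true => simp [qs, hD] at hq
      | false =>
        simp only [qs, hD, List.mem_cons] at hq
        rcases hq with rfl | hq
        · rw [hD, List.length_cons] at h1
          omega
        · exact ih _ (by rw [List.length_append, List.length_singleton]; omega) q hq

section run

variable {M : Alg} {p : Polynomial ℕ} {E : Oracle} {x : List Bool} {O : Oracle} {t t' B : ℕ}

/-- consistency of the partial information -/
def Con (O : Oracle) (t : ℕ) (K : List (List Bool × Bool)) : Prop :=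
  ∀ e ∈ K, O e.1 = e.2 ∧ e.1.length ≤ t

theorem con_step {K : List (List Bool × Bool)} {Q : List (List Bool)} (h : Con O t K)
    (hQ : ∀ q ∈ Q, q.length ≤ t) : Con O t (K ++ Q.zip (Q.map O)) := by
  intro e he
  rw [List.mem_append] at he
  rcases he with he | he
  · exact h e he
  · obtain ⟨i, hi, rfl⟩ := List.mem_iff_getElem.1 he
    rw [List.getElem_zip, List.getElem_map]
    exact ⟨rfl, hQ _ (List.getElem_mem _)⟩

theorem evr_stop {D : List Bool → List Bool} {O : Oracle} {t n : ℕ} {v : List Bool}
    (hD : D [] = true :: v) (hv : v.length ≤ t) : evr D O t (n + 1) [] = true :: v := by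
  rw [evr_succ]
  have h : clip t (D []) = true :: v := by
    unfold clip
    rw [hD, if_neg (by rw [List.length_cons]; omega)]
  rw [h, if_neg (by simp)]

theorem go_none {r n : ℕ} {K : List (List Bool × Bool)} (h : ¬ ∃ c, Cert M p E x K c) :
    evr (go M p E x r K) O t' (n + 1) [] = [true] := by
  apply evr_stop _ (by simp)
  cases r with
  | zero => unfold go; rw [if_neg h]
  | succ r => unfold go; rw [dif_neg h]

theorem go_step {r n : ℕ} {K : List (List Bool × Bool)} (h : ∃ c, Cert M p E x K c)
    (hQ : ∀ q ∈ Qc M E x h.choose, q.length ≤ t') :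
    evr (go M p E x (r + 1) K) O t' ((Qc M E x h.choose).length + n) [] =
      evr (go M p E x r (K ++ (Qc M E x h.choose).zip ((Qc M E x h.choose).map O))) O t' n [] := by
  rw [evr_ask hQ]
  · congr 1
    funext b
    rw [go, dif_pos h, if_neg (by simp)]
    have h1 : ((Qc M E x h.choose).map O ++ b).take (Qc M E x h.choose).length =
        (Qc M E x h.choose).map O := by
      have : (Qc M E x h.choose).length = ((Qc M E x h.choose).map O).length := by simp
      rw [this, List.take_left]
    have h2 : ((Qc M E x h.choose).map O ++ b).drop (Qc M E x h.choose).length = b := by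
      have : (Qc M E x h.choose).length = ((Qc M E x h.choose).map O).length := by simp
      rw [this, List.drop_left]
    rw [h1, h2]
  · intro a ha
    rw [go, dif_pos h, if_pos ha]

theorem go_acc (ht : t ≤ t') (ht1 : 1 ≤ t')
    (hQ : ∀ c, c.1.length ≤ p.eval x.length → (Qc M E x c).length ≤ B ∧
      ∀ q ∈ Qc M E x c, q.length ≤ t)
    (hx : ∀ K, Con O t K → ∃ c, Cert M p E x K c) : ∀ (r : ℕ) (K : List (List Bool × Bool)),
    Con O t K → ∀ n ≥ r * B + 1, evr (go M p E x r K) O t' n [] = [true, true] := by
  intro r
  induction r with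
  | zero =>
    intro K hK n hn
    obtain ⟨n, rfl⟩ : ∃ n', n = n' + 1 := ⟨n - 1, by omega⟩
    refine evr_stop ?_ (by simpa using ht1)
    unfold go
    rw [if_pos (hx K hK)]
  | succ r ih =>
    intro K hK n hn
    have h := hx K hK
    obtain ⟨h1, h2⟩ := hQ h.choose h.choose_spec.1
    have e : (r + 1) * B = r * B + B := by ring
    obtain ⟨n, rfl⟩ : ∃ n', n = (Qc M E x h.choose).length + n' :=
      ⟨n - (Qc M E x h.choose).length, by omega⟩
    rw [go_step h fun q hq => (h2 q hq).trans ht]
    exact ih _ (con_step hK h2) n (by omega)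

open Classical in
/-- the number of unknown questions of the other certificate -/
noncomputable def pot (Q₀ : List (List Bool)) (K : List (List Bool × Bool)) : ℕ :=
  (Q₀.toFinset.filter (fun q => q ∉ K.map Prod.fst)).card

theorem go_rej {Q₀ : List (List Bool)} {K₀ : List (List Bool × Bool)} (ht : t ≤ t')
    (hQ : ∀ c, c.1.length ≤ p.eval x.length → (Qc M E x c).length ≤ B ∧
      ∀ q ∈ Qc M E x c, q.length ≤ t)
    (hinc : ∀ K c, Con O t K → K₀ ⊆ K → Cert M p E x K c →
      ∃ q ∈ Qc M E x c, q ∈ Q₀ ∧ q ∉ K.map Prod.fst) :
    ∀ (r : ℕ) (K : List (List Bool × Bool)), Con O t K → K₀ ⊆ K → pot Q₀ K ≤ r →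
      ∀ n ≥ r * B + 1, evr (go M p E x r K) O t' n [] = [true] := by
  classical
  intro r
  induction r with
  | zero =>
    intro K hK hK0 hp n hn
    obtain ⟨n, rfl⟩ : ∃ n', n = n' + 1 := ⟨n - 1, by omega⟩
    refine go_none ?_
    rintro ⟨c, hc⟩
    obtain ⟨q, _, hq1, hq2⟩ := hinc K c hK hK0 hc
    unfold pot at hp
    rw [Nat.le_zero, Finset.card_eq_zero] at hp
    have : q ∈ Q₀.toFinset.filter (fun q => q ∉ K.map Prod.fst) := by
      rw [Finset.mem_filter, List.mem_toFinset]
      exact ⟨hq1, hq2⟩
    rw [hp] at this
    simp at this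
  | succ r ih =>
    intro K hK hK0 hp n hn
    by_cases h : ∃ c, Cert M p E x K c
    · obtain ⟨h1, h2⟩ := hQ h.choose h.choose_spec.1
      have e : (r + 1) * B = r * B + B := by ring
      obtain ⟨n, rfl⟩ : ∃ n', n = (Qc M E x h.choose).length + n' :=
        ⟨n - (Qc M E x h.choose).length, by omega⟩
      rw [go_step h fun q hq => (h2 q hq).trans ht]
      refine ih _ (con_step hK h2) (fun e he => List.mem_append_left _ (hK0 he)) ?_ n (by omega)
      obtain ⟨q, hq0, hq1, hq2⟩ := hinc K h.choose hK hK0 h.choose_spec
      have hlt : pot Q₀ (K ++ (Qc M E x h.choose).zip ((Qc M E x h.choose).map O)) < pot Q₀ K := by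
        unfold pot
        refine Finset.card_lt_card ?_
        rw [Finset.ssubset_iff_of_subset]
        · refine ⟨q, ?_, ?_⟩
          · rw [Finset.mem_filter, List.mem_toFinset]
            exact ⟨hq1, hq2⟩
          · rw [Finset.mem_filter]
            rintro ⟨_, h3⟩
            apply h3
            rw [List.map_append, List.mem_append]
            right
            rw [List.map_fst_zip (by simp)]
            exact hq0
        · intro q' hq'
          rw [Finset.mem_filter] at hq' ⊢
          refine ⟨hq'.1, fun h3 => hq'.2 ?_⟩
          rw [List.map_append, List.mem_append]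
          exact Or.inl h3
      omega
    · obtain ⟨n, rfl⟩ : ∃ n', n = n' + 1 := ⟨n - 1, by omega⟩
      exact go_none h

end run

/-- Two languages in `NP` which are complementary, and forced to be disjoint, are in `P`. -/
theorem isP_of_forced (A : Oracle) (M₁ M₀ : Alg) (p₁ p₀ : Polynomial ℕ) (ℓ : ℕ)
    (hf : ∀ A' : Oracle, (∀ u : List Bool, u.length ≤ ℓ → A' u = A u) → ∀ x : List Bool,
      ¬ ((∃ w : List Bool, w.length ≤ p₁.eval x.length ∧
          acc M₁ (join A' E0) (pairBits w x) = [true]) ∧
        ∃ w : List Bool, w.length ≤ p₀.eval x.length ∧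
          acc M₀ (join A' E0) (pairBits w x) = [true]))
    (L : Set (List Bool))
    (h1 : ∀ x, x ∈ L ↔ ∃ w : List Bool, w.length ≤ p₁.eval x.length ∧
      acc M₁ (join A E0) (pairBits w x) = [true])
    (h0 : ∀ x, x ∉ L ↔ ∃ w : List Bool, w.length ≤ p₀.eval x.length ∧
      acc M₀ (join A E0) (pairBits w x) = [true]) :
    IsP (join A E0) L := by
  classical
  obtain ⟨b₁, hb₁⟩ := A2.act_bound M₁
  obtain ⟨b₀, hb₀⟩ := A2.act_bound M₀
  -- the prefix
  obtain ⟨W, hW⟩ : ∃ W : Finset (List Bool), ∀ u : List Bool, u.length ≤ ℓ → u ∈ W :=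
    ⟨(List.finite_length_le Bool ℓ).toFinset, fun u hu => by simpa using hu⟩
  set K₀ : List (List Bool × Bool) :=
    (W.filter (fun u => u.length ≤ ℓ)).toList.map (fun u => (false :: u, A u)) with hK₀
  have hK₀1 : ∀ u : List Bool, u.length ≤ ℓ → (false :: u, A u) ∈ K₀ := by
    intro u hu
    rw [hK₀, List.mem_map]
    exact ⟨u, by rw [Finset.mem_toList, Finset.mem_filter]; exact ⟨hW u hu, hu⟩, rfl⟩
  have hK₀2 : ∀ t, ℓ + 1 ≤ t → Con (join A E0) t K₀ := by
    intro t ht e he
    rw [hK₀, List.mem_map] at he
    obtain ⟨u, hu, rfl⟩ := he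
    rw [Finset.mem_toList, Finset.mem_filter] at hu
    refine ⟨rfl, ?_⟩
    rw [List.length_cons]
    omega
  obtain ⟨h, hh⟩ := ix_surj (M₁, p₁, K₀)
  -- the bounds
  set z₁ : Polynomial ℕ := Polynomial.C 2 * p₁ + Polynomial.X + Polynomial.C 1 with hz₁
  set z₀ : Polynomial ℕ := Polynomial.C 2 * p₀ + Polynomial.X + Polynomial.C 1 with hz₀
  set T : Polynomial ℕ := b₁.comp z₁ + b₀.comp z₀ + M₀.p.comp z₀ + Polynomial.C (ℓ + 2) with hT
  set T' : Polynomial ℕ := T * M₁.p.comp z₁ + T + Polynomial.C 1 with hT'
  have hlen1 : ∀ w x : List Bool, w.length ≤ p₁.eval x.length →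
      (pairBits w x).length ≤ z₁.eval x.length := by
    intro w x hw
    rw [A2.length_pairBits, hz₁]
    simp only [Polynomial.eval_add, Polynomial.eval_mul, Polynomial.eval_C, Polynomial.eval_X]
    omega
  have hlen0 : ∀ w x : List Bool, w.length ≤ p₀.eval x.length →
      (pairBits w x).length ≤ z₀.eval x.length := by
    intro w x hw
    rw [A2.length_pairBits, hz₀]
    simp only [Polynomial.eval_add, Polynomial.eval_mul, Polynomial.eval_C, Polynomial.eval_X]
    omega
  have hTx : ∀ x : List Bool, T.eval x.length = b₁.eval (z₁.eval x.length) +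
      b₀.eval (z₀.eval x.length) + M₀.p.eval (z₀.eval x.length) + (ℓ + 2) := by
    intro x
    simp only [hT, Polynomial.eval_add, Polynomial.eval_comp, Polynomial.eval_C]
  have hT'x : ∀ x : List Bool, T'.eval x.length = T.eval x.length * M₁.p.eval (z₁.eval x.length) +
      T.eval x.length + 1 := by
    intro x
    simp only [hT', Polynomial.eval_add, Polynomial.eval_mul, Polynomial.eval_comp,
      Polynomial.eval_C]
  -- the algorithm
  have hg : Poly (fun x : List Bool => pairBits h (pairBits
      (pairBits x (List.replicate (T.eval x.length) true))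
      (List.replicate (T'.eval x.length) true))) :=
    poly_pairBits (NPC.Poly.const h) (poly_pairBits (poly_pairBits Poly.id
      (poly_ones (UPoly.eval (UPoly.length Poly.id) T)))
      (poly_ones (UPoly.eval (UPoly.length Poly.id) T')))
  have hFP := IsFP.comp (IsFP.of_poly (A := join A E0)
    (F := fun v => if v = [true, true] then [true] else [])
    (Poly.ite (Poly.decide_eq Poly.id (NPC.Poly.const _)) (NPC.Poly.const _) (NPC.Poly.const _)))
    ((isFP_U0 A).precomp hg)
  refine ⟨_, hFP, fun x => ?_⟩
  set t := T.eval x.length with ht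
  set t' := T'.eval x.length with ht'
  have hue : ue (Da Ph) (join A E0) (pairBits h (pairBits
      (pairBits x (List.replicate t true)) (List.replicate t' true))) =
      evr (go M₁ p₁ (EE (cutl t U0)) x t K₀) (join A E0) t' (t' + 1) [] := by
    unfold ue dx tm
    simp only [unpair_pairBits, List.length_replicate]
    congr 1
    funext a
    rw [Da_eq hh, List.length_replicate]
  simp only [hue]
  have htt : t ≤ t' := by
    rw [ht', hT'x]
    have : 0 ≤ T.eval x.length * M₁.p.eval (z₁.eval x.length) := Nat.zero_le _
    omega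
  have hbig : t' + 1 ≥ t * M₁.p.eval (z₁.eval x.length) + 1 := by
    rw [ht', hT'x, ← ht]
    omega
  have hTt := hTx x
  have hQ : ∀ c : List Bool × Oracle, c.1.length ≤ p₁.eval x.length →
      (Qc M₁ (EE (cutl t U0)) x c).length ≤ M₁.p.eval (z₁.eval x.length) ∧
      ∀ q ∈ Qc M₁ (EE (cutl t U0)) x c, q.length ≤ t := by
    intro c hc
    have h2 := hlen1 c.1 x hc
    refine ⟨(qs_length _ _ _ _ _).trans (eval_mono _ h2), fun q hq => ?_⟩
    have h3 := qs_len hb₁ _ _ _ _ (by simp) q hq
    have h4 := eval_mono b₁ h2
    omega
  have hE : ∀ q : List Bool, q.length ≤ t → EE (cutl t U0) q = E0 q := fun q hq => EE_cut U0 t q hq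
  have hcon0 : Con (join A E0) t K₀ := hK₀2 t (by omega)
  -- change of the fixed part
  have hchange : ∀ (w : List Bool) (A' : Oracle), w.length ≤ p₁.eval x.length →
      acc M₁ (join A' (EE (cutl t U0))) (pairBits w x) =
        acc M₁ (join A' E0) (pairBits w x) := by
    intro w A' hw
    have h2 := (qs_congr M₁ (join A' (EE (cutl t U0))) (join A' E0) (pairBits w x) _ [] (by
      intro q hq
      have h3 := (hQ (w, A') hw).2 q hq
      rcases q with _ | ⟨b, q⟩
      · rfl
      cases b with
      | false => rfl
      | true =>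
        rw [List.length_cons] at h3
        exact (hE q (by omega)).symm)).2
    unfold acc Alg.out
    rw [h2]
  by_cases hx : x ∈ L
  · simp only [hx, true_iff]
    obtain ⟨w, hw, hacc⟩ := (h1 x).1 hx
    have h2 := go_acc (M := M₁) (p := p₁) (E := EE (cutl t U0)) (x := x) (O := join A E0)
      (B := M₁.p.eval (z₁.eval x.length)) htt (by omega) hQ (by
        intro K hK
        refine ⟨(w, A), hw, fun e he => ?_, ?_⟩
        · obtain ⟨h3, h4⟩ := hK e he
          rw [← h3]
          obtain ⟨e1, e2⟩ := e
          rcases e1 with _ | ⟨b, q⟩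
          · rfl
          cases b with
          | false => rfl
          | true =>
            simp only [List.length_cons] at h4
            exact hE q (by omega)
        · show acc M₁ (join A (EE (cutl t U0))) (pairBits w x) = [true]
          rw [hchange w A hw]
          exact hacc) t K₀ hcon0 (t' + 1) hbig
    rw [h2]
    simp
  · simp only [hx, false_iff]
    obtain ⟨w₀, hw₀, hacc₀⟩ := (h0 x).1 hx
    set Q₀ := qs M₀ (join A E0) (pairBits w₀ x) (M₀.p.eval (pairBits w₀ x).length) [] with hQ₀
    have hpot : pot Q₀ K₀ ≤ t := by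
      unfold pot
      refine (Finset.card_filter_le _ _).trans ((List.toFinset_card_le _).trans ?_)
      refine (qs_length _ _ _ _ _).trans ?_
      have h2 := eval_mono M₀.p (hlen0 w₀ x hw₀)
      omega
    have h2 := go_rej (M := M₁) (p := p₁) (E := EE (cutl t U0)) (x := x) (O := join A E0)
      (B := M₁.p.eval (z₁.eval x.length)) (Q₀ := Q₀) (K₀ := K₀) htt hQ (by
        intro K c hK hK0 hc
        by_contra hno
        push Not at hno
        set A' : Oracle := fun u => if false :: u ∈ Q₀ then A u else c.2 u with hA'
        have ha : ∀ u : List Bool, u.length ≤ ℓ → A' u = A u := by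
          intro u hu
          have h3 := hc.2.1 _ (hK0 (hK₀1 u hu))
          have h4 : c.2 u = A u := h3
          rw [hA']
          dsimp only
          split_ifs
          · rfl
          · exact h4
        refine hf A' ha x ⟨⟨c.1, hc.1, ?_⟩, ⟨w₀, hw₀, ?_⟩⟩
        · have h3 := (qs_congr M₁ (join c.2 (EE (cutl t U0))) (join A' E0) (pairBits c.1 x) _ [] (by
            intro q hq
            have h4 := (hQ c hc.1).2 q hq
            rcases q with _ | ⟨b, q⟩
            · rfl
            cases b with
            | true =>
              rw [List.length_cons] at h4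
              exact (hE q (by omega)).symm
            | false =>
              change (if false :: q ∈ Q₀ then A q else c.2 q) = c.2 q
              split_ifs with h5
              · have h6 := hno _ hq h5
                obtain ⟨e, he, he2⟩ := List.mem_map.1 h6
                have h7 := (hK e he).1
                have h8 := hc.2.1 e he
                rw [he2] at h7 h8
                have h7' : A q = e.2 := h7
                have h8' : c.2 q = e.2 := h8
                rw [h7', h8']
              · rfl)).2
          have h4 := hc.2.2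
          unfold acc Alg.out at h4 ⊢
          rw [h3]
          exact h4
        · have h3 := (qs_congr M₀ (join A E0) (join A' E0) (pairBits w₀ x) _ [] (by
            intro q hq
            rcases q with _ | ⟨b, q⟩
            · rfl
            cases b with
            | true => rfl
            | false =>
              change (if false :: q ∈ Q₀ then A q else c.2 q) = A q
              rw [if_pos hq])).2
          unfold acc Alg.out at hacc₀ ⊢
          rw [h3]
          exact hacc₀) t K₀ hcon0 (List.Subset.refl _) hpot (t' + 1) hbig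
    rw [h2]
    simp

end Pool.Agent.W2helper61.LH
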