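import Pool.Agent.W2helper61.LH.Low
import Pool.Agent.W2helper58.GU.UE
import Pool.Agent.W2helper71.GU.Core

/-! The column which tells the actions of the strategies. -/

set_option autoImplicit false

namespace Pool.Agent.W2helper61.LH

open Pool.Agent.NPC Pool.Agent.H622R2 Pool.Agent.H620R2.Gauge Pool.Agent.H591R3.PHG
  Pool.Agent.TH678.GC
open Pool.Agent.W2helper58.GU (evr evr_succ clip cw Ub ue isFP_ue dx tm)
open Pool.Agent.W2helper71.GU (qs qs_length qs_congr)

/-- recursion on the length -/
noncomputable def gcol (F : List Bool → Oracle → Bool) (s : List Bool) : Bool :=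
  F s (fun u => if _h : u.length < s.length then gcol F u else false)
termination_by s.length

/-- cut off at the length `m` -/
def cutl (m : ℕ) (U : Oracle) : Oracle := fun q => if q.length < m then U q else false

/-- one step of the recursion -/
noncomputable def FF (Φ : Oracle → List Bool → List Bool → List Bool → List Bool)
    (s : List Bool) (U : Oracle) : Bool :=
  (cw (unpair (unpair (unpair s).2).2).1.length
    (Φ (cutl (unpair (unpair (unpair s).2).1).2.length U) (unpair s).1 (unpair (unpair s).2).1
      (unpair (unpair (unpair (unpair s).2).2).2).1)).getD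
    (unpair (unpair (unpair (unpair s).2).2).2).2.length false

/-- the column -/
noncomputable def Uc (Φ : Oracle → List Bool → List Bool → List Bool → List Bool) : Oracle :=
  gcol (FF Φ)

/-- the actions -/
noncomputable def Da (Φ : Oracle → List Bool → List Bool → List Bool → List Bool)
    (h y a : List Bool) : List Bool := Φ (cutl (unpair y).2.length (Uc Φ)) h y a

theorem Uc_step (Φ : Oracle → List Bool → List Bool → List Bool → List Bool) (s : List Bool) :
    Uc Φ s = FF Φ s (fun u => if u.length < s.length then Uc Φ u else false) := by
  have h : gcol (FF Φ) s = FF Φ s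
      (fun u => if _h : u.length < s.length then gcol (FF Φ) u else false) := by
    conv_lhs => rw [gcol]
  unfold Uc
  rw [h]
  rfl

theorem Uc_eq (Φ : Oracle → List Bool → List Bool → List Bool → List Bool) :
    Uc Φ = Ub (Da Φ) := by
  funext s
  have h : cutl (unpair (unpair (unpair s).2).1).2.length
      (fun u => if u.length < s.length then Uc Φ u else false) =
      cutl (unpair (unpair (unpair s).2).1).2.length (Uc Φ) := by
    funext q
    unfold cutl
    by_cases hq : q.length < (unpair (unpair (unpair s).2).1).2.length
    · have h1 := unpair_len2 (unpair (unpair s).2).1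
      have h2 := unpair_len1 (unpair s).2
      have h3 := unpair_len2 s
      rw [if_pos hq, if_pos hq]
      dsimp only
      rw [if_pos (by omega)]
    · rw [if_neg hq, if_neg hq]
  have h4 : FF Φ s (fun u => if u.length < s.length then Uc Φ u else false) = Ub (Da Φ) s := by
    unfold FF Ub Da
    rw [h]
  rw [Uc_step, h4]

/-- the other columns, given the column `U` -/
def EE (U : Oracle) : Oracle := join (fun _ => false) (join U fun _ => false)

theorem EE_U (A U : Oracle) (s : List Bool) :
    join A (EE U) (true :: true :: false :: s) = U s := rfl

theorem EE_cut (U : Oracle) (t : ℕ) (q : List Bool) (hq : q.length ≤ t) :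
    EE (cutl t U) q = EE U q := by
  unfold EE
  rcases q with _ | ⟨b, q⟩
  · rfl
  cases b with
  | false => rfl
  | true =>
    rcases q with _ | ⟨b, q⟩
    · rfl
    cases b with
    | true => rfl
    | false =>
      change cutl t U q = U q
      unfold cutl
      simp only [List.length_cons] at hq
      rw [if_pos (by omega)]

/-! ### The strategy -/

section strategy

variable (M : Alg) (p : Polynomial ℕ) (E : Oracle) (x : List Bool)

/-- the partial information `K` is compatible with acceptance -/
def Cert (K : List (List Bool × Bool)) (c : List Bool × Oracle) : Prop :=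
  c.1.length ≤ p.eval x.length ∧ (∀ e ∈ K, join c.2 E e.1 = e.2) ∧
    acc M (join c.2 E) (pairBits c.1 x) = [true]

/-- the questions of the accepting computation -/
def Qc (c : List Bool × Oracle) : List (List Bool) :=
  qs M (join c.2 E) (pairBits c.1 x) (M.p.eval (pairBits c.1 x).length) []

open Classical in
/-- the strategy -/
noncomputable def go : ℕ → List (List Bool × Bool) → List Bool → List Bool
  | 0, K, _ => if ∃ c, Cert M p E x K c then [true, true] else [true]
  | r + 1, K, a =>
    if h : ∃ c, Cert M p E x K c then
      if a.length < (Qc M E x h.choose).length then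
        false :: (Qc M E x h.choose).getD a.length []
      else go r (K ++ (Qc M E x h.choose).zip (a.take (Qc M E x h.choose).length))
        (a.drop (Qc M E x h.choose).length)
    else [true]

end strategy

/-- the descriptions of the strategies -/
abbrev Ix : Type := Alg × Polynomial ℕ × List (List Bool × Bool)

theorem exists_ix : ∃ d : List Bool → Ix, Function.Surjective d := by
  have h1 := CC.poly_countable
  have h2 : Countable Alg := Alg.countable
  have : Nonempty Ix := ⟨(⟨fun _ => [], CC.const_polyTime [], 0⟩, 0, [])⟩
  obtain ⟨f, hf⟩ := exists_surjective_nat Ix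
  refine ⟨fun h => f h.length, fun i => ?_⟩
  obtain ⟨n, hn⟩ := hf i
  exact ⟨List.replicate n true, by simpa using hn⟩

/-- the strategy with a given description -/
noncomputable def ix (h : List Bool) : Ix := exists_ix.choose h

theorem ix_surj : Function.Surjective ix := exists_ix.choose_spec

/-- all strategies -/
noncomputable def Ph (U : Oracle) (h y a : List Bool) : List Bool :=
  go (ix h).1 (ix h).2.1 (EE U) (unpair y).1 (unpair y).2.length (ix h).2.2 a

/-- the column -/
noncomputable def U0 : Oracle := Uc Ph

/-- the fixed part of the oracle -/
noncomputable def E0 : Oracle := EE U0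

theorem Da_eq {h : List Bool} {M : Alg} {p : Polynomial ℕ} {K : List (List Bool × Bool)}
    (hh : ix h = (M, p, K)) (x τ a : List Bool) :
    Da Ph h (pairBits x τ) a = go M p (EE (cutl τ.length U0)) x τ.length K a := by
  unfold Da Ph
  rw [unpair_pairBits, hh]
  rfl

theorem isFP_U0 (A : Oracle) : IsFP (join A E0) (ue (Da Ph) (join A E0)) :=
  isFP_ue _ _ fun s => by rw [← Uc_eq]; rfl

end Pool.Agent.W2helper61.LH
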