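import Pool.Agent.W2helper61.LH.Low
import Pool.Agent.W2helper71.GU.Core

/-! The hidden maximum of a linear order: the adversary for `P` relative to `NP`. -/

set_option autoImplicit false

namespace Pool.Agent.W2helper61.LH

open Pool.Agent.NPC Pool.Agent.H622R2 Pool.Agent.H620R2.Gauge Pool.Agent.H591R3.PHG
  Pool.Agent.TH678.GC
open Pool.Agent.W2helper71.GU (QS QS_card QS_congr poly_lt exists_unasked)

/-- the language given by an algorithm and a bound for the witnesses -/
def NL (M : Alg) (p : Polynomial ℕ) (A : Oracle) : Set (List Bool) :=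
  {y | ∃ w : List Bool, w.length ≤ p.eval y.length ∧ acc M A (pairBits w y) = [true]}

/-- the rank and the label of every string -/
abbrev Wc : Type := (List Bool → ℕ) × (List Bool → Bool)

/-- the oracle -/
def Wd (A₀ : Oracle) (ℓ : ℕ) (c : Wc) : Oracle := fun u =>
  if u.length ≤ ℓ then A₀ u else if (unpair u).2 = [] then c.2 (unpair u).1 else
    decide (c.1 (unpair u).2 < c.1 (unpair u).1)

/-- `c'` agrees with `c` on `F`, and the other strings are above `F` -/
structure Ok (F : Finset (List Bool)) (c c' : Wc) : Prop where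
  inj : Function.Injective c'.1
  lab : ∀ x ∈ F, c'.2 x = c.2 x
  ord : ∀ x ∈ F, ∀ z ∈ F, (c'.1 z < c'.1 x ↔ c.1 z < c.1 x)
  top : ∀ x ∉ F, ∀ z ∈ F, c'.1 z < c'.1 x

theorem Ok.trans {F F₁ : Finset (List Bool)} {c c₁ c₂ : Wc} (h : Ok F c c₁) (hF : F ⊆ F₁)
    (h' : Ok F₁ c₁ c₂) : Ok F c c₂ := by
  refine ⟨h'.inj, fun x hx => (h'.lab x (hF hx)).trans (h.lab x hx), fun x hx z hz =>
    (h'.ord x (hF hx) z (hF hz)).trans (h.ord x hx z hz), fun x hx z hz => ?_⟩
  by_cases h1 : x ∈ F₁
  · exact (h'.ord x h1 z (hF hz)).2 (h.top x hx z hz)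
  · exact h'.top x h1 z (hF hz)

/-- lift the strings outside `F` -/
def lift (F : Finset (List Bool)) (c : Wc) (b : Bool) : Wc :=
  (fun x => if x ∈ F then c.1 x else c.1 x + (F.sup c.1 + 1), fun x => if x ∈ F then c.2 x else b)

theorem ok_lift (F : Finset (List Bool)) (c : Wc) (hc : Function.Injective c.1) (b : Bool) :
    Ok F c (lift F c b) := by
  have hs : ∀ x ∈ F, c.1 x ≤ F.sup c.1 := fun x hx => Finset.le_sup (f := c.1) hx
  refine ⟨?_, ?_, ?_, ?_⟩
  · intro x z h
    simp only [lift] at h
    by_cases hx : x ∈ F <;> by_cases hz : z ∈ F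
    · rw [if_pos hx, if_pos hz] at h
      exact hc h
    · rw [if_pos hx, if_neg hz] at h
      have := hs x hx
      omega
    · rw [if_neg hx, if_pos hz] at h
      have := hs z hz
      omega
    · rw [if_neg hx, if_neg hz] at h
      exact hc (by omega)
  · intro x hx
    simp [lift, hx]
  · intro x hx z hz
    simp [lift, hx, hz]
  · intro x hx z hz
    have := hs z hz
    simp only [lift]
    rw [if_neg hx, if_pos hz]
    omega

/-- the strings which are touched by a question to the column -/
def tch (u : List Bool) : Finset (List Bool) := {(unpair u).1, (unpair u).2}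

theorem wd_congr {A₀ : Oracle} {ℓ : ℕ} {F : Finset (List Bool)} {c c' : Wc} (h : Ok F c c')
    {u : List Bool} (hu : tch u ⊆ F) : Wd A₀ ℓ c' u = Wd A₀ ℓ c u := by
  have h1 : (unpair u).1 ∈ F := hu (by simp [tch])
  have h2 : (unpair u).2 ∈ F := hu (by simp [tch])
  unfold Wd
  rw [h.lab _ h1]
  simp only [h.ord _ h1 _ h2]

section

variable (A₀ E : Oracle) (ℓ : ℕ) (M₁ : Alg) (p : Polynomial ℕ)

/-- the oracle `join A E` -/
def JW (c : Wc) : Oracle := join (Wd A₀ ℓ c) E

/-- together with the language -/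
noncomputable def OW (c : Wc) : Oracle := rel (JW A₀ E ℓ c) (NL M₁ p (JW A₀ E ℓ c))

/-- the bound for the number of touched strings by one question -/
def sB (L : ℕ) : ℕ := 2 * M₁.p.eval (2 * p.eval L + 1 + L) + 2

theorem refine_query (F : Finset (List Bool)) (c : Wc) (hc : Function.Injective c.1) (L : ℕ)
    (q : List Bool) (hq : q.length ≤ L) : ∃ (F' : Finset (List Bool)) (c' : Wc) (b : Bool),
      Function.Injective c'.1 ∧ (∀ c₂, Ok F' c' c₂ → Ok F c c₂) ∧
      F'.card ≤ F.card + sB M₁ p L ∧ ∀ c₂, Ok F' c' c₂ → OW A₀ E ℓ M₁ p c₂ q = b := by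
  classical
  rcases q with _ | ⟨d, q⟩
  · exact ⟨F, c, false, hc, fun _ h => h, by omega, fun _ _ => rfl⟩
  cases d with
  | false =>
    rcases q with _ | ⟨d, u⟩
    · exact ⟨F, c, false, hc, fun _ h => h, by omega, fun _ _ => rfl⟩
    cases d with
    | true => exact ⟨F, c, E u, hc, fun _ h => h, by omega, fun _ _ => rfl⟩
    | false =>
      have h1 := ok_lift F c hc false
      refine ⟨F ∪ tch u, lift F c false, Wd A₀ ℓ (lift F c false) u, h1.inj,
        fun c₂ h => h1.trans Finset.subset_union_left h, ?_, fun c₂ h => ?_⟩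
      · refine (Finset.card_union_le _ _).trans ?_
        have h2 : (tch u).card ≤ 2 := Finset.card_le_two
        unfold sB
        omega
      · exact wd_congr h Finset.subset_union_right
  | true =>
    by_cases hy : ∃ c₁, Ok F c c₁ ∧ q ∈ NL M₁ p (JW A₀ E ℓ c₁)
    · obtain ⟨c₁, h1, w, hw, hacc⟩ := hy
      set Q := QS M₁ (JW A₀ E ℓ c₁) (pairBits w q) with hQ
      refine ⟨F ∪ Q.biUnion (fun r => tch r.tail), c₁, true, h1.inj,
        fun c₂ h => h1.trans Finset.subset_union_left h, ?_, fun c₂ h => ?_⟩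
      · refine (Finset.card_union_le _ _).trans ?_
        have h2 : (Q.biUnion (fun r => tch r.tail)).card ≤ Q.card * 2 :=
          Finset.card_biUnion_le_card_mul _ _ _ fun r _ => Finset.card_le_two
        have h3 : Q.card ≤ M₁.p.eval (pairBits w q).length := QS_card _ _ _
        have h4 : M₁.p.eval (pairBits w q).length ≤ M₁.p.eval (2 * p.eval L + 1 + L) := by
          apply eval_mono
          rw [A2.length_pairBits]
          rw [List.length_cons] at hq
          have := eval_mono p (show q.length ≤ L by omega)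
          omega
        unfold sB
        omega
      · change cha (NL M₁ p (JW A₀ E ℓ c₂)) q = true
        rw [cha_iff]
        refine ⟨w, hw, ?_⟩
        have h5 := (QS_congr M₁ (JW A₀ E ℓ c₁) (JW A₀ E ℓ c₂) (pairBits w q) (by
          intro r hr
          rcases r with _ | ⟨d, r⟩
          · rfl
          cases d with
          | true => rfl
          | false =>
            exact wd_congr h ((Finset.subset_biUnion_of_mem (fun r => tch (List.tail r)) hr).trans
              Finset.subset_union_right))).2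
        unfold acc at hacc ⊢
        rw [h5]
        exact hacc
    · refine ⟨F, c, false, hc, fun _ h => h, by omega, fun c₂ h => ?_⟩
      change cha (NL M₁ p (JW A₀ E ℓ c₂)) q = false
      rw [Bool.eq_false_iff, ne_eq, cha_iff]
      exact fun h2 => hy ⟨c₂, h, h2⟩

theorem refine_run (M : Alg) (x : List Bool) (L : ℕ)
    (hL : ∀ a : List Bool, a.length ≤ M.p.eval x.length → (M.D (pairBits x a)).length ≤ L) :
    ∀ (k : ℕ) (a : List Bool), a.length + k = M.p.eval x.length →
    ∀ (F : Finset (List Bool)) (c : Wc), Function.Injective c.1 →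
      ∃ (F' : Finset (List Bool)) (c' : Wc) (v : Option (List Bool)),
      Function.Injective c'.1 ∧ (∀ c₂, Ok F' c' c₂ → Ok F c c₂) ∧
      F'.card ≤ F.card + k * sB M₁ p L ∧
      ∀ c₂, Ok F' c' c₂ → M.run (OW A₀ E ℓ M₁ p c₂) x k a = v := by
  intro k
  induction k with
  | zero =>
    intro a _ F c hc
    exact ⟨F, c, none, hc, fun _ h => h, by omega, fun _ _ => rfl⟩
  | succ k ih =>
    intro a ha F c hc
    by_cases h : (M.D (pairBits x a)).head? = some false
    · obtain ⟨F₁, c₁, b, h1, h2, h3, h4⟩ := refine_query A₀ E ℓ M₁ p F c hc L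
        (M.D (pairBits x a)).tail (by
          rw [List.length_tail]
          have := hL a (by omega)
          omega)
      obtain ⟨F₂, c₂, v, k1, k2, k3, k4⟩ := ih (a ++ [b])
        (by rw [List.length_append, List.length_singleton]; omega) F₁ c₁ h1
      refine ⟨F₂, c₂, v, k1, fun c₃ h5 => h2 c₃ (k2 c₃ h5), ?_, fun c₃ h5 => ?_⟩
      · have : (k + 1) * sB M₁ p L = k * sB M₁ p L + sB M₁ p L := by ring
        omega
      · rw [A2.run_succ, if_pos h, h4 c₃ (k2 c₃ h5)]
        exact k4 c₃ h5
    · refine ⟨F, c, some (M.D (pairBits x a)).tail, hc, fun _ h => h, by omega, fun c₂ _ => ?_⟩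
      rw [A2.run_succ, if_neg h]

end

/-! ### The languages -/

/-- `x` beats `z` -/
def bt (A : Oracle) (x z : List Bool) : Prop := x ≠ z ∧ A (pairBits x z) = true

/-- the triple shows that the relation is not a linear order -/
def Bad (A : Oracle) (x y z : List Bool) : Prop :=
  (x ≠ y ∧ A (pairBits x y) = A (pairBits y x)) ∨ (bt A x y ∧ bt A y z ∧ bt A z x)

/-- the language of the strings which are beaten; it contains all strings of a length for which the
relation is not a linear order -/
def LB (A : Oracle) : Set (List Bool) :=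
  {q | (∃ z : List Bool, z.length = q.length ∧ bt A z q) ∨
    ∃ x y z : List Bool, x.length = q.length ∧ y.length = q.length ∧ z.length = q.length ∧
      Bad A x y z}

/-- the label of the maximum -/
def LX (A : Oracle) : Set (List Bool) :=
  {x | x = List.replicate x.length true ∧ ∃ κ : List Bool, κ.length = x.length ∧ κ ∉ LB A ∧
    A (pairBits κ []) = true}

theorem wd_pair {A₀ : Oracle} {ℓ n : ℕ} (hn : ℓ < n) (c : Wc) {x z : List Bool}
    (hx : x.length = n) (hz : z.length = n) :
    Wd A₀ ℓ c (pairBits x z) = decide (c.1 z < c.1 x) := by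
  unfold Wd
  have h1 : ¬ (pairBits x z).length ≤ ℓ := by rw [A2.length_pairBits]; omega
  have h2 : z ≠ [] := by
    rintro rfl
    simp at hz
    omega
  rw [if_neg h1, unpair_pairBits, if_neg h2]

theorem wd_lab {A₀ : Oracle} {ℓ n : ℕ} (hn : ℓ < n) (c : Wc) {x : List Bool}
    (hx : x.length = n) : Wd A₀ ℓ c (pairBits x []) = c.2 x := by
  unfold Wd
  have h1 : ¬ (pairBits x []).length ≤ ℓ := by rw [A2.length_pairBits]; omega
  rw [if_neg h1, unpair_pairBits, if_pos rfl]

theorem wd_notBad {A₀ : Oracle} {ℓ n : ℕ} (hn : ℓ < n) {c : Wc} (hc : Function.Injective c.1)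
    {x y z : List Bool} (hx : x.length = n) (hy : y.length = n) (hz : z.length = n) :
    ¬ Bad (Wd A₀ ℓ c) x y z := by
  rintro (⟨h1, h2⟩ | ⟨⟨_, h1⟩, ⟨_, h2⟩, ⟨_, h3⟩⟩)
  · rw [wd_pair hn c hx hy, wd_pair hn c hy hx, decide_eq_decide] at h2
    have h3 : c.1 x ≠ c.1 y := fun h => h1 (hc h)
    omega
  · rw [wd_pair hn c hx hy, decide_eq_true_eq] at h1
    rw [wd_pair hn c hy hz, decide_eq_true_eq] at h2
    rw [wd_pair hn c hz hx, decide_eq_true_eq] at h3
    omega

/-- `X` is not in `Δ_2` for some `A` close to `A₀` -/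
theorem dense_LX (E : Oracle) (M M₁ : Alg) (p : Polynomial ℕ) (A₀ : Oracle) (ℓ : ℕ) :
    ∃ A : Oracle, (∀ u : List Bool, u.length ≤ ℓ → A u = A₀ u) ∧
      ∃ x : List Bool, ¬ (x ∈ LX A ↔
        acc M (rel (join A E) (NL M₁ p (join A E))) x = [true]) := by
  classical
  obtain ⟨b, hb⟩ := A2.act_bound M
  obtain ⟨n, hn, hP⟩ := poly_lt (M.p * (2 * M₁.p.comp (2 * p.comp b + 1 + b) + 2)) ℓ
  simp only [Polynomial.eval_mul, Polynomial.eval_add, Polynomial.eval_comp,
    Polynomial.eval_ofNat, Polynomial.eval_one] at hP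
  set x := List.replicate n true with hx
  have hxl : x.length = n := by rw [hx, List.length_replicate]
  obtain ⟨F, c, v, h1, _, h3, h4⟩ := refine_run A₀ E ℓ M₁ p M x (b.eval n)
    (fun a ha => by have := hb x a ha; rwa [hxl] at this) (M.p.eval x.length) [] (by simp) ∅
    (Encodable.encode, fun _ => false) Encodable.encode_injective
  have hcard : F.card < 2 ^ n := by
    refine lt_of_le_of_lt h3 ?_
    rw [Finset.card_empty, zero_add, hxl]
    exact hP
  obtain ⟨w₀, hw1, hw2⟩ := exists_unasked F id Function.injective_id hcard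
  -- the maximum
  have hfin : ({w : List Bool | w.length = n} : Set (List Bool)).Finite :=
    List.finite_length_eq Bool n
  set r := (lift F c true).1 with hr
  have hlab : ∀ b : Bool, (lift F c b).1 = r := fun b => rfl
  obtain ⟨κ, hκ1, hκ2⟩ := Set.exists_max_image {w : List Bool | w.length = n} r hfin ⟨w₀, hw1⟩
  have hκ : κ.length = n := hκ1
  have hκF : κ ∉ F := by
    intro h
    have h5 := (ok_lift F c h1 true).top w₀ hw2 κ h
    have h6 := hκ2 w₀ hw1
    rw [← hr] at h5
    omega
  have hok : ∀ b : Bool, Ok F c (lift F c b) := ok_lift F c h1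
  have hX : ∀ b : Bool, x ∈ LX (Wd A₀ ℓ (lift F c b)) ↔ b = true := by
    intro b
    have hinj := (hok b).inj
    unfold LX
    rw [Set.mem_ofPred_eq, hxl]
    have hmem : ∀ q : List Bool, q.length = n → (q ∉ LB (Wd A₀ ℓ (lift F c b)) ↔ q = κ) := by
      intro q hq
      unfold LB
      rw [Set.mem_ofPred_eq, hq]
      constructor
      · intro h
        by_contra hne
        refine h (Or.inl ⟨κ, hκ, fun h => hne h.symm, ?_⟩)
        rw [wd_pair hn _ hκ hq, decide_eq_true_eq, hlab]
        have h5 := hκ2 q hq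
        have h6 : r q ≠ r κ := fun h => hne (hinj (by rw [hlab]; exact h))
        omega
      · rintro rfl
        rintro (⟨z, hz, hz1, hz2⟩ | ⟨x, y, z, hx, hy, hz, hbad⟩)
        · rw [wd_pair hn _ hz hq, decide_eq_true_eq, hlab] at hz2
          have h5 := hκ2 z hz
          omega
        · exact wd_notBad hn hinj hx hy hz hbad
    constructor
    · rintro ⟨_, q, hq, hq2, hq3⟩
      rw [hmem q hq] at hq2
      subst hq2
      rw [wd_lab hn _ hq] at hq3
      simpa [lift, hκF] using hq3
    · rintro rfl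
      refine ⟨hx, κ, hκ, (hmem κ hκ).2 rfl, ?_⟩
      rw [wd_lab hn _ hκ]
      simp [lift, hκF]
  have hrun : ∀ b : Bool, M.out (OW A₀ E ℓ M₁ p (lift F c b)) x = v := fun b => h4 _ (hok b)
  have hlow : ∀ b : Bool, ∀ u : List Bool, u.length ≤ ℓ → Wd A₀ ℓ (lift F c b) u = A₀ u := by
    intro b u hu
    unfold Wd
    rw [if_pos hu]
  by_cases hv : v.getD [] = [true]
  · refine ⟨_, hlow false, x, fun h => ?_⟩
    have h5 : x ∈ LX (Wd A₀ ℓ (lift F c false)) := by
      refine h.2 ?_
      unfold acc
      have h6 := hrun false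
      unfold OW JW at h6
      rw [h6]
      exact hv
    rw [hX] at h5
    simp at h5
  · refine ⟨_, hlow true, x, fun h => ?_⟩
    have h5 := h.1 ((hX true).2 rfl)
    unfold acc at h5
    have h6 := hrun true
    unfold OW JW at h6
    rw [h6] at h5
    exact hv h5

end Pool.Agent.W2helper61.LH
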