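import Pool.Agent.H620R2.GaugeR.Seq
import Pool.Agent.H620R2.GaugeR.R1
import Pool.Agent.TH678.GC.Final

/-! Simulation of an oracle algorithm whose oracle is given by an oracle algorithm. -/

set_option autoImplicit false

namespace Pool.Agent.W2helper61.LH

open Pool.Agent.NPC Pool.Agent.H622R2 Pool.Agent.H620R2.Gauge

/-- the output of `M` -/
def acc (M : Alg) (A : Oracle) (y : List Bool) : List Bool := (M.out A y).getD []

theorem ustep_len (s : List Bool × List Bool × Bool) :
    (ustep s).1.length + (ustep s).2.1.length ≤ s.1.length + s.2.1.length := by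
  obtain ⟨a, l, b⟩ := s
  unfold ustep
  cases b with
  | true => simp
  | false =>
    match l with
    | [] => simp
    | true :: [] => simp
    | true :: c :: l' => simp; omega
    | false :: l' => simp

theorem unpair_len (y : List Bool) :
    (unpair y).1.length + (unpair y).2.length ≤ y.length := by
  have key : ∀ (n : ℕ) (s : List Bool × List Bool × Bool),
      (ustep^[n] s).1.length + (ustep^[n] s).2.1.length ≤ s.1.length + s.2.1.length := by
    intro n
    induction n with
    | zero => intro s; simp
    | succ n ih =>
      intro s
      rw [Function.iterate_succ_apply]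
      exact (ih _).trans (ustep_len s)
  have h := key y.length ([], y, false)
  unfold unpair
  rw [List.length_reverse]
  simpa using h

theorem unpair_len1 (y : List Bool) : (unpair y).1.length ≤ y.length := by
  have := unpair_len y; omega

theorem unpair_len2 (y : List Bool) : (unpair y).2.length ≤ y.length := by
  have := unpair_len y; omega

section

variable (M : Alg) (Af : List Bool → Oracle)

/-- the state of the simulation -/
def stt (κ x a : List Bool) : List Bool := pairBits κ (pairBits x a)

/-- the next question (if any) -/
def nxt (s : List Bool) : List Bool := M.D (unpair s).2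

/-- the simulation continues -/
def goes (s : List Bool) : Bool :=
  decide ((unpair (unpair s).2).2.length < M.p.eval (unpair (unpair s).2).1.length) &&
    decide ((nxt M s).head? = some false)

/-- one step, with the answer `b` -/
def stp (y : List Bool) : List Bool :=
  if goes M (unpair y).1 = true then
    pairBits (unpair (unpair y).1).1 (pairBits (unpair (unpair (unpair y).1).2).1
      ((unpair (unpair (unpair y).1).2).2 ++ (unpair y).2))
  else (unpair y).1

/-- the final output -/
def fin (s : List Bool) : List Bool :=
  if (unpair (unpair s).2).2.length < M.p.eval (unpair (unpair s).2).1.length then (nxt M s).tail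
  else []

/-- the step function -/
def stepF (s : List Bool) : List Bool := stp M (pairBits s [Af (unpair s).1 (nxt M s).tail])

theorem poly_nxt : Poly (nxt M) := (poly_of_polyTime M.poly).comp (Poly.snd poly_unpair)

theorem poly_goes : Poly (goes M) := by
  have h2 : Poly (fun s : List Bool => unpair (unpair s).2) :=
    poly_unpair.comp (Poly.snd poly_unpair)
  unfold goes
  exact Poly.and (Poly.decide_lt (Poly.length (Poly.snd h2))
    (UPoly.toPoly (UPoly.eval (UPoly.length (Poly.fst h2)) M.p)))
    (Poly.decide_eq (Poly.head? (poly_nxt M)) (NPC.Poly.const _))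

theorem poly_stp : Poly (stp M) := by
  have h1 : Poly (fun y : List Bool => (unpair y).1) := Poly.fst poly_unpair
  have h0 : Poly (fun y : List Bool => unpair (unpair y).1) := poly_unpair.comp h1
  have h2 : Poly (fun y : List Bool => unpair (unpair (unpair y).1).2) :=
    poly_unpair.comp (Poly.snd h0)
  unfold stp
  exact Poly.ite (Poly.decide_eq ((poly_goes M).comp h1) (NPC.Poly.const true))
    (poly_pairBits (Poly.fst h0) (poly_pairBits (Poly.fst h2)
      (Poly.append (Poly.snd h2) (Poly.snd poly_unpair)))) h1

theorem poly_fin : Poly (fin M) := by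
  have h2 : Poly (fun s : List Bool => unpair (unpair s).2) :=
    poly_unpair.comp (Poly.snd poly_unpair)
  unfold fin
  exact Poly.ite (Poly.decide_lt (Poly.length (Poly.snd h2))
    (UPoly.toPoly (UPoly.eval (UPoly.length (Poly.fst h2)) M.p))) (Poly.tail (poly_nxt M))
    (NPC.Poly.const _)

theorem stepF_stt (κ x a : List Bool) : stepF M Af (stt κ x a) =
    if a.length < M.p.eval x.length ∧ (M.D (pairBits x a)).head? = some false then
      stt κ x (a ++ [Af κ (M.D (pairBits x a)).tail]) else stt κ x a := by
  unfold stepF stp goes nxt stt
  simp only [unpair_pairBits, Bool.and_eq_true, decide_eq_true_eq]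

theorem fin_stt (κ x a : List Bool) : fin M (stt κ x a) =
    if a.length < M.p.eval x.length then (M.D (pairBits x a)).tail else [] := by
  unfold fin nxt stt
  simp only [unpair_pairBits]

theorem iter_stepF (κ x : List Bool) : ∀ (n : ℕ) (a : List Bool), a.length + n = M.p.eval x.length →
    ∀ m ≥ n, fin M ((stepF M Af)^[m] (stt κ x a)) = (M.run (Af κ) x n a).getD [] := by
  intro n
  induction n with
  | zero =>
    intro a ha m _
    have hs : stepF M Af (stt κ x a) = stt κ x a := by
      rw [stepF_stt, if_neg]
      rintro ⟨h, _⟩
      omega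
    have hm : (stepF M Af)^[m] (stt κ x a) = stt κ x a := Function.iterate_fixed hs m
    rw [hm, fin_stt, if_neg (by omega)]
    rfl
  | succ n ih =>
    intro a ha m hm
    rw [A2.run_succ]
    by_cases h : (M.D (pairBits x a)).head? = some false
    · obtain ⟨m, rfl⟩ : ∃ m', m = m' + 1 := ⟨m - 1, by omega⟩
      rw [Function.iterate_succ_apply, stepF_stt, if_pos ⟨by omega, h⟩, if_pos h]
      exact ih _ (by rw [List.length_append, List.length_singleton]; omega) m (by omega)
    · have hs : stepF M Af (stt κ x a) = stt κ x a := by
        rw [stepF_stt, if_neg]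
        rintro ⟨_, h1⟩
        exact h h1
      have hm : (stepF M Af)^[m] (stt κ x a) = stt κ x a := Function.iterate_fixed hs m
      rw [hm, fin_stt, if_pos (by omega), if_neg h]
      rfl

theorem iter_form (κ x : List Bool) : ∀ (m : ℕ) (a : List Bool),
    ∃ a' : List Bool, a'.length ≤ a.length + m ∧ (stepF M Af)^[m] (stt κ x a) = stt κ x a' := by
  intro m
  induction m with
  | zero => intro a; exact ⟨a, by omega, rfl⟩
  | succ m ih =>
    intro a
    rw [Function.iterate_succ_apply, stepF_stt]
    split_ifs with h
    · obtain ⟨a', h1, h2⟩ := ih (a ++ [Af κ (M.D (pairBits x a)).tail])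
      rw [List.length_append, List.length_singleton] at h1
      exact ⟨a', by omega, h2⟩
    · obtain ⟨a', h1, h2⟩ := ih a
      exact ⟨a', by omega, h2⟩

end

/-- Simulation of an algorithm with an oracle which depends on a parameter. -/
theorem sim (M : Alg) {A' : Oracle} {Af : List Bool → Oracle}
    (hA : IsFP A' (fun z => [Af (unpair z).1 (unpair z).2])) :
    IsFP A' (fun z => acc M (Af (unpair z).1) (unpair z).2) := by
  have h1 : Poly (fun s : List Bool => pairBits (unpair s).1 (nxt M s).tail) :=
    poly_pairBits (Poly.fst poly_unpair) (Poly.tail (poly_nxt M))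
  have h2 := hA.precomp h1
  have h3 := IsFP.pair (IsFP.of_poly Poly.id) h2
  have h4 : IsFP A' (stepF M Af) := by
    have h5 := IsFP.comp (IsFP.of_poly (poly_stp M)) h3
    have e : (fun x : List Bool => stp M (pairBits x
        [Af (unpair (pairBits (unpair x).1 (nxt M x).tail)).1
          (unpair (pairBits (unpair x).1 (nxt M x).tail)).2])) = stepF M Af := by
      funext s
      unfold stepF
      simp only [unpair_pairBits]
    rw [← e]
    exact h5
  have hg : Poly (fun z : List Bool => pairBits (unpair z).1 (pairBits (unpair z).2 [])) :=
    poly_pairBits (Poly.fst poly_unpair) (poly_pairBits (Poly.snd poly_unpair) (NPC.Poly.const []))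
  have h6 := IsFP.loop h4 hg M.p (Polynomial.C 4 * Polynomial.X + M.p + Polynomial.C 2) (by
    intro z i hi
    obtain ⟨a', h7, h8⟩ := iter_form M Af (unpair z).1 (unpair z).2 i []
    have h9 : (stepF M Af)^[i] (pairBits (unpair z).1 (pairBits (unpair z).2 [])) =
      stt (unpair z).1 (unpair z).2 a' := h8
    rw [h9]
    unfold stt
    rw [A2.length_pairBits, A2.length_pairBits]
    have := unpair_len z
    simp only [List.length_nil] at h7
    simp only [Polynomial.eval_add, Polynomial.eval_mul, Polynomial.eval_C, Polynomial.eval_X]
    omega)
  have h7 := IsFP.comp (IsFP.of_poly (poly_fin M)) h6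
  have e : (fun x : List Bool => fin M ((stepF M Af)^[M.p.eval x.length]
      (pairBits (unpair x).1 (pairBits (unpair x).2 [])))) =
      fun z => acc M (Af (unpair z).1) (unpair z).2 := by
    funext z
    have h8 := iter_stepF M Af (unpair z).1 (unpair z).2 (M.p.eval (unpair z).2.length) []
      (by simp) (M.p.eval z.length) (eval_mono _ (unpair_len2 z))
    exact h8
  rw [← e]
  exact h7

theorem exists_acc {O : Oracle} {V : List Bool → List Bool} (hV : IsFP O V) :
    ∃ M : Alg, (∀ y, M.out O y = some (V y)) ∧ acc M O = V := by
  obtain ⟨M, hM⟩ := hV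
  refine ⟨M, hM, funext fun y => ?_⟩
  unfold acc
  rw [hM]
  rfl

/-- transitivity -/
theorem trans {A A' : Oracle} {F : List Bool → List Bool} (hF : IsFP A F)
    (hA : IsFP A' (fun q => [A q])) : IsFP A' F := by
  obtain ⟨M, _, rfl⟩ := exists_acc hF
  have h1 : IsFP A' (fun z => [(fun _ : List Bool => A) (unpair z).1 (unpair z).2]) :=
    hA.precomp (Poly.snd poly_unpair)
  have h2 := (sim M (Af := fun _ => A) h1).precomp (g := fun x => pairBits [] x)
    (poly_pairBits (NPC.Poly.const _) Poly.id)
  simp only [unpair_pairBits] at h2
  exact h2

end Pool.Agent.W2helper61.LH
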